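import Pool.Agent.W_7d29a1_R13.UniGG13
import Pool.Agent.W_7d29a1_R34.RplusG93

/-!
Very strong disorder in two transversal dimensions (helper13): for almost every tilt the variance
of the logarithm of the partition function is infinitely often larger than every multiple of `log n`.
-/

set_option autoImplicit false

namespace Pool.Agent.W_7d29a1_R13

open MeasureTheory ProbabilityTheory Filter Topology Pool.Agent.W_MP_7d29a1_pr
  Pool.Agent.W_7d29a1_h46 Pool.Agent.W_7d29a1_h46u Pool.Agent.W_7d29a1_D2.B35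
  Pool.Agent.W_7d29a1_Q29 Pool.Agent.W_7d29a1_R34

/-- From the sets of positive measure to almost every tilt of very strong disorder, with every
constant. -/
theorem aeGG13 {d : ℕ} {ρ : Measure ℝ} [IsProbabilityMeasure ρ] (hd : 0 < d) (hρ : EM ρ) (β : ℝ)
    (hU : ∀ g : ℝ, 0 < g → ∀ B : Set (Vec d), Bornology.IsBounded B → MeasurableSet B →
      volume B ≠ 0 →
      (∀ h ∈ B, lam ρ β h + g ≤ Real.log (Phi h) + Real.log (∫ t, Real.exp (β * t) ∂ρ)) →
      ∀ C : ℝ, ∃ n₀ : ℕ, ∀ n : ℕ, n₀ ≤ n → ∀ K : ℝ,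
        (∀ h ∈ B, ∀ m : ℕ, m ≤ n → Va ρ β h m ≤ K) → C * Real.log n ≤ K) :
    ∀ᵐ h : Vec d, VSD ρ β h → ∀ C : ℝ, ∃ᶠ n : ℕ in atTop, C * Real.log n ≤ Va ρ β h n := by
  have hlog : Tendsto (fun n : ℕ => Real.log n) atTop atTop :=
    Real.tendsto_log_atTop.comp tendsto_natCast_atTop_atTop
  obtain ⟨q, hq⟩ : ∃ q : Vec d → ℝ, q = fun h : Vec d =>
    Real.log (Phi h) + Real.log (∫ t, Real.exp (β * t) ∂ρ) - lam ρ β h := ⟨_, rfl⟩
  have hqc : Continuous q := by
    rw [hq]
    exact contVSD81 hd hρ β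
  have key : ∀ i N j : ℕ, volume {h : Vec d | ‖h‖ ≤ j ∧ 1 / ((j : ℝ) + 1) ≤ q h ∧
      ∀ n : ℕ, N ≤ n → Va ρ β h n ≤ i * Real.log n} = 0 := by
    intro i N j
    set E : Set (Vec d) := {h : Vec d | ‖h‖ ≤ j ∧ 1 / ((j : ℝ) + 1) ≤ q h ∧
      ∀ n : ℕ, N ≤ n → Va ρ β h n ≤ i * Real.log n} with hE
    by_contra hv
    have hEcl : IsClosed E := by
      have h1 : E = {h : Vec d | ‖h‖ ≤ j} ∩ ({h : Vec d | 1 / ((j : ℝ) + 1) ≤ q h} ∩
          ⋂ n : ℕ, ⋂ _ : N ≤ n, {h : Vec d | Va ρ β h n ≤ i * Real.log n}) := by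
        ext h
        simp [hE]
      rw [h1]
      refine (isClosed_le continuous_norm continuous_const).inter
        ((isClosed_le continuous_const hqc).inter ?_)
      exact isClosed_iInter fun n => isClosed_iInter fun _ =>
        isClosed_le (cont65 hd hρ β n) continuous_const
    have hEb : E ⊆ Metric.closedBall (0 : Vec d) j := by
      intro h hh
      rw [mem_closedBall_zero_iff]
      exact hh.1
    -- the small lengths
    have hD : ∃ D : ℝ, ∀ h ∈ E, ∀ m : ℕ, m < N → Va ρ β h m ≤ D := by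
      have h1 : ∀ m : ℕ, ∃ D : ℝ, ∀ h ∈ E, Va ρ β h m ≤ D := by
        intro m
        obtain ⟨D, hD⟩ := (isCompact_closedBall (0 : Vec d) (j : ℝ)).bddAbove_image
          (cont65 hd hρ β m).continuousOn
        exact ⟨D, fun h hh => hD ⟨h, hEb hh, rfl⟩⟩
      choose D hD using h1
      refine ⟨∑ m ∈ Finset.range N, |D m|, fun h hh m hm => ?_⟩
      refine ((hD m h hh).trans (le_abs_self _)).trans ?_
      exact Finset.single_le_sum (f := fun m => |D m|) (fun m _ => abs_nonneg _)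
        (Finset.mem_range.2 hm)
    obtain ⟨D, hD⟩ := hD
    obtain ⟨n₀, H⟩ := hU (1 / ((j : ℝ) + 1)) (by positivity) E
      (Metric.isBounded_closedBall.subset hEb) hEcl.measurableSet hv (fun h hh => by
        have h1 := hh.2.1
        rw [hq] at h1
        simp only at h1
        linarith) ((i : ℝ) + 1)
    have h1 := (hlog.eventually_gt_atTop (max 0 D)).and (eventually_ge_atTop n₀)
    obtain ⟨n, hn1, hn2⟩ := h1.exists
    have hl0 : 0 < Real.log n := (le_max_left _ _).trans_lt hn1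
    have hlD : D < Real.log n := (le_max_right _ _).trans_lt hn1
    have h2 := H n hn2 (max D (i * Real.log n)) (fun h hh m hm => by
      rcases lt_or_ge m N with hmN | hmN
      · exact (hD h hh m hmN).trans (le_max_left _ _)
      · refine (hh.2.2 m hmN).trans (le_trans ?_ (le_max_right _ _))
        refine mul_le_mul_of_nonneg_left ?_ (Nat.cast_nonneg _)
        rcases Nat.eq_zero_or_pos m with h0 | h0
        · rw [h0]
          simpa using hl0.le
        · exact Real.log_le_log (by exact_mod_cast h0) (by exact_mod_cast hm))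
    have h3 : 0 ≤ (i : ℝ) * Real.log n := by positivity
    rcases le_max_iff.1 h2 with h4 | h4
    · linarith
    · linarith
  have key2 : ∀ᵐ h : Vec d, ∀ i N j : ℕ, ¬ (‖h‖ ≤ j ∧ 1 / ((j : ℝ) + 1) ≤ q h ∧
      ∀ n : ℕ, N ≤ n → Va ρ β h n ≤ i * Real.log n) := by
    rw [ae_all_iff]
    intro i
    rw [ae_all_iff]
    intro N
    rw [ae_all_iff]
    intro j
    rw [ae_iff]
    simpa only [not_not] using key i N j
  filter_upwards [key2] with h hh hV C
  have hqh : 0 < q h := by
    rw [hq]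
    unfold VSD at hV
    simp only
    linarith
  obtain ⟨j1, hj1⟩ := exists_nat_one_div_lt hqh
  obtain ⟨j2, hj2⟩ := exists_nat_ge ‖h‖
  obtain ⟨i, hi⟩ := exists_nat_ge C
  rw [frequently_atTop]
  intro N
  have h1 := hh i N (max j1 j2)
  push Not at h1
  obtain ⟨n, hn, h2⟩ := h1 (by
    push_cast
    exact hj2.trans (le_max_right _ _)) (by
    refine le_trans ?_ hj1.le
    push_cast
    refine one_div_le_one_div_of_le (by positivity) ?_
    have := le_max_left (j1 : ℝ) (j2 : ℝ)
    linarith)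
  refine ⟨n, hn, le_trans ?_ h2.le⟩
  exact mul_le_mul_of_nonneg_right hi (Real.log_natCast_nonneg n)

variable {ρ : Measure ℝ} [IsProbabilityMeasure ρ]

/-- The uniform lower bound, with no hypothesis left. -/
theorem uniGG13' (hρ : EM ρ) (hnc : ∀ c : ℝ, ρ {c} ≠ 1) {β : ℝ} (hβ : 0 < β) : UniGG ρ β :=
  uniGG13 hρ (leak34 hρ (box34 (by norm_num) hρ β) (tail13 (by norm_num) hρ β))
    (npb98 (by norm_num) hρ hnc hβ) (Csy42.loc42 (by norm_num) hρ β)

/-- **Theorem R++.** In two transversal dimensions, at almost every tilt of very strong disorder,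
the variance of the logarithm of the partition function divided by `log n` is unbounded. -/
theorem rpp13 (hρ : EM ρ) (hnc : ∀ c : ℝ, ρ {c} ≠ 1) {β : ℝ} (hβ : 0 < β) :
    ∀ᵐ h : Vec 2, VSD ρ β h → ∀ C : ℝ, ∃ᶠ n : ℕ in atTop, C * Real.log n ≤ Va ρ β h n :=
  aeGG13 (by norm_num) hρ β fun g hg B hB hBm hBv hq C =>
    uniGG13' hρ hnc hβ g hg B hB hBm hBv hq C

end Pool.Agent.W_7d29a1_R13
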