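import Pool.Agent.W_7d29a1_R13.MainLL13
import Pool.Agent.W_7d29a1_Q29.Fin29

/-!
Fluctuations against wandering with every constant, for an arbitrary i.i.d. environment (helper13,
after helper29 and helper72).
-/

set_option autoImplicit false

namespace Pool.Agent.W_7d29a1_R13

open MeasureTheory ProbabilityTheory Filter Topology Pool.Agent.W_MP_7d29a1_pr
  Pool.Agent.W_7d29a1_h46 Pool.Agent.W_7d29a1_h46u Pool.Agent.W_7d29a1_D2.B35
  Pool.Agent.W_7d29a1_Q29

/-- The ball form in dimension two, in the letters of `Q29`. -/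
theorem ballLL13 {ρ : Measure ℝ} [IsProbabilityMeasure ρ] (hρ : EM ρ) (hnc : ∀ c : ℝ, ρ {c} ≠ 1)
    {β : ℝ} (hβ : 0 < β) (h : Vec 2) (hvs : VSD ρ β h) (C : ℝ) :
    ∀ᶠ n : ℕ in atTop, ∀ K w : ℝ, 0 ≤ w → (∀ m : ℕ, m ≤ 2 * n → Va ρ β h m ≤ K) →
      K * (w + 1) ≤ C * (Real.sqrt n * Real.log n) →
      ∃ t : ℕ, t < n ∧ ∀ x : Vec 2, 1 / 32 < ∫ η, (1 - PolT β h η
        {s : Fin (2 * n) → Step 2 | ‖emb (pos s t) - x‖ ≤ w}) ∂(law 2 ρ) := by
  classical
  obtain ⟨c, hc, H⟩ := mainLL13 (d := 2) (by norm_num) hρ hnc hβ h hvs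
  have hl : Tendsto (fun n : ℕ => Real.log n) atTop atTop :=
    Real.tendsto_log_atTop.comp tendsto_natCast_atTop_atTop
  filter_upwards [H (2 * C + 1), hl.eventually_ge_atTop 1] with n hn hl1 K w hw hV hKw
  have hn1 : 1 ≤ n := by
    rcases Nat.eq_zero_or_pos n with h0 | h0
    · exfalso
      rw [h0] at hl1
      norm_num at hl1
    · exact h0
  have hn' : (0 : ℝ) < n := by exact_mod_cast hn1
  by_contra hcon
  push Not at hcon
  have h2 : (Finset.range n).filter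
      (fun t => ¬ Win ρ β h (2 * n) t ((2 * w + 1) ^ 2) (1 / 32)) = ∅ := by
    rw [Finset.filter_eq_empty_iff]
    intro t ht
    rw [not_not]
    have htn := Finset.mem_range.1 ht
    obtain ⟨x, hx⟩ := hcon t htn
    exact win_of_ball (by omega) h x hw hx
  have h3 := hn K ((2 * w + 1) ^ 2) (by positivity) hV (by
    rw [h2, Finset.card_empty]
    push_cast
    positivity)
  have hs : 0 < Real.sqrt n := Real.sqrt_pos.2 hn'
  rw [Real.sqrt_div (by positivity), Real.sqrt_sq (by positivity)] at h3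
  have hK0 : 0 ≤ K := (va_nonneg h 0).trans (hV 0 (by omega))
  have h4 : K * ((2 * w + 1) / Real.sqrt n) ≤ 2 * C * Real.log n := by
    rw [mul_div_assoc', div_le_iff₀ hs]
    have h5 : K * (2 * w + 1) ≤ 2 * (K * (w + 1)) := by nlinarith
    calc K * (2 * w + 1) ≤ 2 * (K * (w + 1)) := h5
      _ ≤ 2 * (C * (Real.sqrt n * Real.log n)) := by linarith
      _ = 2 * C * Real.log n * Real.sqrt n := by ring
  linarith

variable {Ω : Type*} [MeasurableSpace Ω] {μ : Measure Ω} [IsProbabilityMeasure μ] {d : ℕ}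
  {ρ : Measure ℝ} [IsProbabilityMeasure ρ] {ω : ℕ × Site d → Ω → ℝ} {β : ℝ}

/-- **W1**: fluctuations against wandering with every constant, for an arbitrary environment. -/
theorem mainT13 (hd : 0 < d) (hω : IID μ ρ ω) (hρ : EM ρ) (hnc : ∀ c : ℝ, ρ {c} ≠ 1) (hβ : 0 < β)
    (h : Vec d) (hh : lamN ρ β h < annN ρ β h) : ∃ c : ℝ, 0 < c ∧ ∀ C : ℝ, ∀ᶠ n : ℕ in atTop,
      ∀ K N : ℝ, 0 < N →
      (∀ m : ℕ, m ≤ 2 * n → Var[fun x => Real.log (Zn β h (fun p => ω p x) m); μ] ≤ K) →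
      (Set.ncard {t : ℕ | t < n ∧ ∀ W : Finset (Site d), (W.card : ℝ) ≤ N →
        1 / 32 < ∫ x, PolT β h (fun p => ω p x)
          {s : Fin (2 * n) → Step d | pos s t ∉ W} ∂μ} : ℝ) ≤ c * n →
        C * Real.log n ≤ K * Real.sqrt (N / n) := by
  classical
  obtain ⟨c, hc, H⟩ := mainLL13 hd hρ hnc hβ h ((vsd29 h).1 hh)
  refine ⟨c, hc, fun C => ?_⟩
  filter_upwards [H C] with n hn K N hN hV hW
  refine hn K N hN (fun m hm => ?_) ?_
  · rw [← var29 hd hω hρ]
    exact hV m hm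
  · refine le_trans ?_ hW
    rw [← Set.ncard_coe_finset]
    have hfin : {t : ℕ | t < n ∧ ∀ W : Finset (Site d), (W.card : ℝ) ≤ N →
        1 / 32 < ∫ x, PolT β h (fun p => ω p x)
          {s : Fin (2 * n) → Step d | pos s t ∉ W} ∂μ}.Finite :=
      (Set.finite_lt_nat n).subset fun t ht => ht.1
    refine Nat.cast_le.2 (Set.ncard_le_ncard ?_ hfin)
    intro t ht
    rw [Finset.mem_coe, Finset.mem_filter] at ht
    refine ⟨Finset.mem_range.1 ht.1, fun W hWN => ?_⟩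
    have ht2 : t ≤ 2 * n := by
      have := Finset.mem_range.1 ht.1
      omega
    rw [win29 hd hω h ht2 W (Finset.measurable_sum W fun y _ => measurable_Qt39 β h _ _ y)]
    by_contra hcon
    exact ht.2 ⟨W, hWN, not_lt.1 hcon⟩

/-- **W2**: dimension two: the largest variance up to `2 n` times the transversal displacement is
larger than every multiple of `√n log n`. -/
theorem ballT13 {ω : ℕ × Site 2 → Ω → ℝ} (hω : IID μ ρ ω) (hρ : EM ρ) (hnc : ∀ c : ℝ, ρ {c} ≠ 1)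
    (hβ : 0 < β) (h : Vec 2) (hh : lamN ρ β h < annN ρ β h) (C : ℝ) :
    ∀ᶠ n : ℕ in atTop, ∀ K w : ℝ, 0 ≤ w →
      (∀ m : ℕ, m ≤ 2 * n → Var[fun x => Real.log (Zn β h (fun p => ω p x) m); μ] ≤ K) →
      K * (w + 1) ≤ C * (Real.sqrt n * Real.log n) →
      ∃ t < n, ∀ v : Vec 2, 1 / 32 < ∫ x, PolT β h (fun p => ω p x)
        {s : Fin (2 * n) → Step 2 | w < ‖emb (pos s t) - v‖} ∂μ := by
  filter_upwards [ballLL13 hρ hnc hβ h ((vsd29 h).1 hh) C] with n hn K w hw hV hKw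
  obtain ⟨t, ht, h1⟩ := hn K w hw (fun m hm => by
    rw [← var29 (by norm_num) hω hρ]
    exact hV m hm) hKw
  refine ⟨t, ht, fun v => lt_of_lt_of_eq (h1 v) ?_⟩
  have hm : Measurable fun η : Env 2 => 1 - PolT β h η
      {s : Fin (2 * n) → Step 2 | ‖emb (pos s t) - v‖ ≤ w} :=
    measurable_const.sub (measurable_PolT β h _)
  rw [← StrA_int hω hm]
  refine integral_congr_ae (Filter.Eventually.of_forall fun x => ?_)
  beta_reduce
  have hpos := ZT_univ_pos (n := 2 * n) (d := 2) (by norm_num) β h (fun p => ω p x)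
  unfold PolT
  rw [eq_comm, eq_sub_iff_add_eq, ← add_div, div_eq_one_iff_eq hpos.ne']
  unfold ZT
  rw [← Finset.sum_add_distrib]
  refine Finset.sum_congr rfl fun s _ => ?_
  by_cases hs : ‖emb (pos s t) - v‖ ≤ w
  · simp [hs]
  · simp [hs, not_le.1 hs]

/-- **W2**, the positive form: if the variances up to `2 n` are at most `K` and at every time
`t < n` the polymer of length `2 n` is at distance at most `w` of some point with mean probability
at least `31 / 32` then `C √n log n ≤ K (w + 1)`, for every `C` and all large `n`. -/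
theorem ballT13' {ω : ℕ × Site 2 → Ω → ℝ} (hω : IID μ ρ ω) (hρ : EM ρ) (hnc : ∀ c : ℝ, ρ {c} ≠ 1)
    (hβ : 0 < β) (h : Vec 2) (hh : lamN ρ β h < annN ρ β h) (C : ℝ) :
    ∀ᶠ n : ℕ in atTop, ∀ K w : ℝ, 0 ≤ w →
      (∀ m : ℕ, m ≤ 2 * n → Var[fun x => Real.log (Zn β h (fun p => ω p x) m); μ] ≤ K) →
      (∀ t < n, ∃ v : Vec 2, ∫ x, PolT β h (fun p => ω p x)
        {s : Fin (2 * n) → Step 2 | w < ‖emb (pos s t) - v‖} ∂μ ≤ 1 / 32) →
      C * (Real.sqrt n * Real.log n) ≤ K * (w + 1) := by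
  filter_upwards [ballT13 hω hρ hnc hβ h hh C] with n hn K w hw hV hW
  by_contra hcon
  push Not at hcon
  obtain ⟨t, ht, h1⟩ := hn K w hw hV hcon.le
  obtain ⟨v, hv⟩ := hW t ht
  exact absurd (h1 v) (not_lt.2 hv)

end Pool.Agent.W_7d29a1_R13
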