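import Pool.Agent.W_7d29a1_R13.UL13
import Pool.Agent.W_7d29a1_P89.SL

/-!
The times with a small gap carry a small logarithmic weight, uniformly over compact sets of tilts
of very strong disorder, for every multiple of `log n` (helper13).
-/

set_option autoImplicit false

namespace Pool.Agent.W_7d29a1_R13

open MeasureTheory ProbabilityTheory Filter Topology Pool.Agent.W_MP_7d29a1_pr
  Pool.Agent.W_7d29a1_h46 Pool.Agent.W_7d29a1_h46u Pool.Agent.W_7d29a1_D2.B35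
  Pool.Agent.W_7d29a1_Q29 Pool.Agent.W_7d29a1_P89

/-- Eventual numbers. -/
lemma evb13 {c0 Γ C1 a u1 : ℝ} (hc : 0 < c0) (hΓ : 0 < Γ) (hC1 : 0 ≤ C1) (ha : 0 < a) :
    ∀ᶠ n : ℕ in atTop, 4 ≤ n ∧ 1 ≤ Real.log n ∧ 16 * u1 ≤ Real.log n ∧
      2 + 2 / c0 - Real.log c0 ≤ Γ * Real.log n ∧
      C1 * (a * Real.log n) ^ (3 / 4 : ℝ) ≤ Γ * Real.log n ∧
      (C1 * (n : ℝ) ^ (3 / 4 : ℝ) + 1) * (2 * (a * Real.log n)) ≤ n ∧
      a * Real.log n * (Γ * Real.log n) ^ 2 * (2 / c0) * (n : ℝ) ^ (1 / 8 : ℝ) ≤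
        (n : ℝ) ^ (1 / 2 : ℝ) / 2 := by
  have hl : Tendsto (fun n : ℕ => Real.log n) atTop atTop :=
    Real.tendsto_log_atTop.comp tendsto_natCast_atTop_atTop
  have h1 : ∀ᶠ n : ℕ in atTop, 4 ≤ n := eventually_ge_atTop 4
  have h2 := hl.eventually_ge_atTop 1
  have h3 := hl.eventually_ge_atTop (16 * u1)
  have h4 := hl.eventually_ge_atTop ((2 + 2 / c0 - Real.log c0) / Γ)
  have hal : Tendsto (fun n : ℕ => a * Real.log n) atTop atTop := hl.const_mul_atTop ha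
  have h5 : ∀ᶠ n : ℕ in atTop, C1 * a * (a * Real.log n) ^ (-(1 / 4 : ℝ)) ≤ Γ := by
    have h6 := ((tendsto_rpow_neg_atTop (show (0 : ℝ) < 1 / 4 by norm_num)).comp hal).const_mul
      (C1 * a)
    rw [mul_zero] at h6
    exact (h6.eventually_le_const hΓ)
  have h6 : ∀ᶠ n : ℕ in atTop, 2 * a * (C1 + 1) * Real.log n ≤ 1 * (n : ℝ) ^ (1 / 4 : ℝ) :=
    log_le_pow_ev (by norm_num) one_pos
  have h7 : ∀ᶠ n : ℕ in atTop, (4 / c0 * a * Γ ^ 2 + 1) * Real.log n ≤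
      1 * (n : ℝ) ^ (1 / 8 : ℝ) := log_le_pow_ev (by norm_num) one_pos
  filter_upwards [h1, h2, h3, h4, h5, h6, h7] with n e1 e2 e3 e4 e5 e6 e7
  have hn : (4 : ℝ) ≤ n := by exact_mod_cast e1
  have hn0 : (0 : ℝ) < n := by linarith
  obtain ⟨l, hl'⟩ : ∃ l, l = Real.log n := ⟨_, rfl⟩
  rw [← hl'] at e2 e3 e4 e5 e6 e7 ⊢
  have hl0 : 0 < l := by linarith
  have hal0 : 0 < a * l := by positivity
  refine ⟨e1, e2, e3, ?_, ?_, ?_, ?_⟩
  · rw [div_le_iff₀ hΓ] at e4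
    linarith
  · have h8 : (a * l) ^ (3 / 4 : ℝ) = a * l * (a * l) ^ (-(1 / 4 : ℝ)) := by
      nth_rewrite 2 [← Real.rpow_one (a * l)]
      rw [← Real.rpow_add hal0]
      norm_num
    rw [h8]
    have h9 := mul_le_mul_of_nonneg_right e5 hl0.le
    linarith
  · have h8 : (1 : ℝ) ≤ (n : ℝ) ^ (3 / 4 : ℝ) := Real.one_le_rpow (by linarith) (by norm_num)
    have h9 : C1 * (n : ℝ) ^ (3 / 4 : ℝ) + 1 ≤ (C1 + 1) * (n : ℝ) ^ (3 / 4 : ℝ) := by linarith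
    have h10 : (n : ℝ) ^ (3 / 4 : ℝ) * (n : ℝ) ^ (1 / 4 : ℝ) = n := by
      rw [← Real.rpow_add hn0]
      norm_num
    calc (C1 * (n : ℝ) ^ (3 / 4 : ℝ) + 1) * (2 * (a * l))
        ≤ (C1 + 1) * (n : ℝ) ^ (3 / 4 : ℝ) * (2 * (a * l)) :=
          mul_le_mul_of_nonneg_right h9 (by positivity)
      _ = (n : ℝ) ^ (3 / 4 : ℝ) * (2 * a * (C1 + 1) * l) := by ring
      _ ≤ (n : ℝ) ^ (3 / 4 : ℝ) * (1 * (n : ℝ) ^ (1 / 4 : ℝ)) :=
          mul_le_mul_of_nonneg_left e6 (by positivity)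
      _ = n := by rw [one_mul, h10]
  · obtain ⟨q, hq⟩ : ∃ q, q = (n : ℝ) ^ (1 / 8 : ℝ) := ⟨_, rfl⟩
    have hq0 : 0 < q := by
      rw [hq]
      positivity
    rw [← hq, one_mul] at e7
    rw [← hq]
    have hB : 0 ≤ 4 / c0 * a * Γ ^ 2 := by positivity
    have hlq : l ≤ q := by
      have : 1 * l ≤ (4 / c0 * a * Γ ^ 2 + 1) * l :=
        mul_le_mul_of_nonneg_right (by linarith) hl0.le
      linarith
    have hbl : 4 / c0 * a * Γ ^ 2 * l ≤ q := by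
      have : 4 / c0 * a * Γ ^ 2 * l ≤ (4 / c0 * a * Γ ^ 2 + 1) * l :=
        mul_le_mul_of_nonneg_right (by linarith) hl0.le
      linarith
    have h8 : (n : ℝ) ^ (1 / 2 : ℝ) = q ^ 4 := by
      rw [hq, ← Real.rpow_natCast, ← Real.rpow_mul hn0.le]
      norm_num
    rw [h8]
    have h9 : l * l ≤ q * q := mul_le_mul hlq hlq hl0.le hq0.le
    have h10 : 4 / c0 * a * Γ ^ 2 * l * (l * l) ≤ q * (q * q) :=
      mul_le_mul hbl h9 (by positivity) hq0.le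
    have h11 := mul_le_mul_of_nonneg_right h10 hq0.le
    calc a * l * (Γ * l) ^ 2 * (2 / c0) * q = (4 / c0 * a * Γ ^ 2 * l * (l * l) * q) / 2 := by ring
      _ ≤ (q * (q * q) * q) / 2 := by linarith
      _ = q ^ 4 / 2 := by ring

variable {d : ℕ} {ρ : Measure ℝ} [IsProbabilityMeasure ρ]

open Classical in
/-- **The times with a small gap** carry a small logarithmic weight. -/
theorem bad13 (hd : 0 < d) (hρ : EM ρ) (β : ℝ) {S : Set (Vec d)} (hS : IsCompact S)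
    (hvs : ∀ h ∈ S, VSD ρ β h) {c0 Γ : ℝ} (hc : 0 < c0) (hΓ : 0 < Γ) :
    ∃ n₀ : ℕ, ∀ n : ℕ, n₀ ≤ n → ∀ h ∈ S, ∀ K : ℝ, K ≤ (Γ * Real.log n) ^ 2 →
      (∀ m : ℕ, m ≤ n → Va ρ β h m ≤ K) →
      ∃ m : ℕ, n / 2 ≤ m ∧ m ≤ n ∧ ∑ t ∈ (Finset.Icc (Nat.sqrt n) n).filter (fun t => t < m ∧
        c0 ≤ (law d ρ).real {η | ∃ y ∈ boxF d t, c0 * Z β h η t ≤ PP β h η t y} ∧
        A ρ β h m - A ρ β h t - A ρ β h (m - t) < 4 * (Γ * Real.log n)), (1 / (t : ℝ)) ≤ 1 := by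
  obtain ⟨C2, hC2⟩ : ∃ C2 : ℝ, C2 = 6 + 12 / c0 := ⟨_, rfl⟩
  have hC20 : 0 < C2 := by
    rw [hC2]
    positivity
  obtain ⟨θ, hθ⟩ : ∃ θ : ℝ, θ = min 1 (1 / (16 * C2 * Γ)) := ⟨_, rfl⟩
  have hθ0 : 0 < θ := hθ ▸ lt_min one_pos (by positivity)
  have hθ1 : θ ≤ 1 := hθ ▸ min_le_left _ _
  have hθa : θ * (C2 * Γ) ≤ 1 / 16 := by
    have h1 : θ ≤ 1 / (16 * C2 * Γ) := hθ ▸ min_le_right _ _
    have h2 := mul_le_mul_of_nonneg_right h1 (by positivity : 0 ≤ C2 * Γ)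
    refine h2.trans (le_of_eq ?_)
    field_simp
  obtain ⟨k1, u1, hlk⟩ := luckU13 hd hρ β hS hvs hθ0 hθ1
  obtain ⟨C1, hC1, hrate⟩ := rateC13 hd hρ β hS
  obtain ⟨a, ha⟩ : ∃ a : ℝ, a = (2 * C2 * Γ + 1) * (k1 + 1) := ⟨_, rfl⟩
  have ha0 : 0 < a := by
    rw [ha]
    positivity
  obtain ⟨n0, hn0⟩ := eventually_atTop.1 (evb13 (u1 := u1) hc hΓ hC1 ha0)
  refine ⟨n0, fun n hn h hh K hK hVa => ?_⟩
  obtain ⟨e1, e2, e3, e4, e5, e6, e7⟩ := hn0 n hn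
  obtain ⟨k, y, u, hk1, hkk, hu, huu, hp⟩ := hlk h hh
  have hnR : (4 : ℝ) ≤ n := by exact_mod_cast e1
  have hnpos : (0 : ℝ) < n := by linarith
  obtain ⟨l, hl⟩ : ∃ l, l = Real.log n := ⟨_, rfl⟩
  rw [← hl] at e2 e3 e4 e5 e6 e7 hK ⊢
  obtain ⟨G, hG⟩ : ∃ G, G = Γ * l := ⟨_, rfl⟩
  rw [← hG] at e4 e5 e7 hK ⊢
  have hl0 : 0 < l := by linarith
  have hG0 : 0 < G := by
    rw [hG]
    positivity
  -- the number of lucky segments
  obtain ⟨r, hr⟩ : ∃ r : ℕ, r = ⌈C2 * G / u⌉₊ := ⟨_, rfl⟩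
  have hu0 : 0 < u := by linarith
  have hr1 : C2 * G ≤ r * u := by
    have h1 := Nat.le_ceil (C2 * G / u)
    rwa [← hr, div_le_iff₀ hu0] at h1
  have hr1' : 1 ≤ r := by
    rw [hr]
    exact Nat.one_le_ceil_iff.2 (by positivity)
  have hr2 : (r : ℝ) ≤ C2 * G / u + 1 := by
    have h1 := (Nat.ceil_lt_add_one (show (0 : ℝ) ≤ C2 * G / u by positivity)).le
    rwa [← hr] at h1
  have hr3 : r * u ≤ C2 * G + u := by
    have h2 := mul_le_mul_of_nonneg_right hr2 hu0.le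
    have h3 : (C2 * G / u + 1) * u = C2 * G + u := by field_simp
    rwa [h3] at h2
  have hr4 : (r : ℝ) ≤ 2 * C2 * G + 1 := by
    have h1 : C2 * G / u ≤ 2 * C2 * G := by
      rw [div_le_iff₀ hu0]
      have h2 : 0 < C2 * G := by positivity
      nlinarith
    linarith
  have hr5 : (r : ℝ) ≤ (2 * C2 * Γ + 1) * l := by
    have h1 : 2 * C2 * G + 1 ≤ (2 * C2 * Γ + 1) * l := by
      rw [hG]
      linarith
    linarith
  have hrk1 : 1 ≤ r * k := Nat.mul_pos hr1' hk1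
  have hrk : ((r * k : ℕ) : ℝ) ≤ a * l := by
    push_cast
    have h1 : (k : ℝ) ≤ k1 + 1 := by
      have : (k : ℝ) ≤ k1 := by exact_mod_cast hkk
      linarith
    calc (r : ℝ) * k ≤ (2 * C2 * Γ + 1) * l * (k1 + 1) :=
          mul_le_mul hr5 h1 (Nat.cast_nonneg _) (by positivity)
      _ = a * l := by
          rw [ha]
          ring
  -- the probability
  have hprob : (n : ℝ) ^ (-(1 / 8 : ℝ)) ≤
      (law d ρ).real {η : Env d | Lk (pr13 ρ β h) (r * k) (r • y) ((r : ℝ) * u) η} := by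
    refine le_trans ?_ (Pool.Agent.W_7d29a1_P78.concat78 (pr13 ρ β h) k y u r)
    refine le_trans ?_ (pow_le_pow_left₀ (Real.exp_pos _).le hp r)
    rw [← Real.exp_nat_mul, Real.rpow_def_of_pos hnpos, Real.exp_le_exp, ← hl]
    have h1 : θ * (r * u) ≤ θ * (C2 * G + u) := mul_le_mul_of_nonneg_left hr3 hθ0.le
    have h2 : θ * (C2 * G) ≤ 1 / 16 * l := by
      have h3 := mul_le_mul_of_nonneg_right hθa hl0.le
      have h4 : θ * (C2 * G) = θ * (C2 * Γ) * l := by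
        rw [hG]
        ring
      linarith
    have h3 : θ * u ≤ 1 * u := mul_le_mul_of_nonneg_right hθ1 hu0.le
    have h4 : (r : ℝ) * -(θ * u) = -(θ * (r * u)) := by ring
    rw [h4]
    linarith
  -- the slope
  have hsl : (C1 * (n : ℝ) ^ (3 / 4 : ℝ) + 1) * (2 * ((r * k : ℕ) : ℝ)) ≤ n := by
    refine le_trans (mul_le_mul_of_nonneg_left ?_ (by positivity)) e6
    linarith
  obtain ⟨m, hm1, hm2, hm3⟩ := slope13 hd hρ β h hC1 (hrate h hh) hrk1 hsl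
  refine ⟨m, hm1, by omega, ?_⟩
  -- the number of bad times
  obtain ⟨Bd, hBd⟩ : ∃ Bd : Finset ℕ, Bd = (Finset.Icc (Nat.sqrt n) n).filter (fun t => t < m ∧
        c0 ≤ (law d ρ).real {η | ∃ y ∈ boxF d t, c0 * Z β h η t ≤ PP β h η t y} ∧
        A ρ β h m - A ρ β h t - A ρ β h (m - t) < 4 * G) := ⟨_, rfl⟩
  rw [← hBd]
  have hDK : ((r * k : ℕ) : ℝ) * (pr13 ρ β h).Lam - A ρ (pr13 ρ β h).be (pr13 ρ β h).h (r * k) ≤
      G := by
    refine (hrate h hh (r * k) hrk1).trans (le_trans ?_ e5)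
    exact mul_le_mul_of_nonneg_left (Real.rpow_le_rpow (by positivity) hrk (by norm_num)) hC1
  have hcount := count13 hd hρ (pr13 ρ β h) (m := m) (K := r * k) (by omega) (c0 := c0)
    (g := 4 * G) (U := r * u) (V := 1) (DK := G) hc (by positivity) hG0.le hDK
    (by exact hm3) zero_le_one (by
      have h1 : 2 * (4 * G + 1 + G) / c0 = 10 * G / c0 + 2 / c0 := by
        field_simp
        ring
      have h2 : C2 * G = 6 * G + 10 * G / c0 + 2 * G / c0 := by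
        rw [hC2]
        field_simp
        ring
      have h3 : 0 ≤ 2 * G / c0 := by positivity
      rw [h1]
      linarith) (r • y) Bd (by
      intro t ht
      rw [hBd, Finset.mem_filter] at ht
      exact ⟨ht.2.1, ht.2.2.1, ht.2.2.2.le⟩)
  have hcard : (Bd.card : ℝ) ≤ (n : ℝ) ^ (1 / 2 : ℝ) / 2 := by
    obtain ⟨p, hp'⟩ : ∃ p, p = (law d ρ).real
        {η : Env d | Lk (pr13 ρ β h) (r * k) (r • y) ((r : ℝ) * u) η} := ⟨_, rfl⟩
    rw [← hp'] at hcount hprob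
    have h1 : ((r * k : ℕ) : ℝ) * Va ρ β h (m + r * k) ≤ a * l * G ^ 2 := by
      have h2 : Va ρ β h (m + r * k) ≤ G ^ 2 := (hVa _ (by omega)).trans hK
      exact mul_le_mul hrk h2 (integral_nonneg fun _ => sq_nonneg _) (by positivity)
    have h2 : (Bd.card : ℝ) * (p * (c0 / 2) * 1 ^ 2) ≤ a * l * G ^ 2 := hcount.trans h1
    have h3 : (Bd.card : ℝ) * ((n : ℝ) ^ (-(1 / 8 : ℝ)) * (c0 / 2)) ≤ a * l * G ^ 2 := by
      refine le_trans (mul_le_mul_of_nonneg_left ?_ (Nat.cast_nonneg _)) h2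
      rw [one_pow, mul_one]
      exact mul_le_mul_of_nonneg_right hprob (by positivity)
    have h4 : (n : ℝ) ^ (-(1 / 8 : ℝ)) * (n : ℝ) ^ (1 / 8 : ℝ) = 1 := by
      rw [← Real.rpow_add hnpos]
      norm_num
    have h5 : 0 ≤ 2 / c0 * (n : ℝ) ^ (1 / 8 : ℝ) := by positivity
    have h6 := mul_le_mul_of_nonneg_right h3 h5
    have h7 : (Bd.card : ℝ) * ((n : ℝ) ^ (-(1 / 8 : ℝ)) * (c0 / 2)) *
        (2 / c0 * (n : ℝ) ^ (1 / 8 : ℝ)) =
        Bd.card * ((n : ℝ) ^ (-(1 / 8 : ℝ)) * (n : ℝ) ^ (1 / 8 : ℝ)) := by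
      field_simp
    rw [h7, h4, mul_one] at h6
    refine h6.trans (le_trans (le_of_eq ?_) e7)
    ring
  -- the weight
  have hsq : 2 ≤ Nat.sqrt n := Nat.le_sqrt.2 (by omega)
  have hsqR : (2 : ℝ) ≤ (Nat.sqrt n : ℕ) := by exact_mod_cast hsq
  have hroot : (n : ℝ) ^ (1 / 2 : ℝ) ≤ 2 * ((Nat.sqrt n : ℕ) : ℝ) := by
    rw [← Real.sqrt_eq_rpow]
    have h2 : √(n : ℝ) ≤ ((Nat.sqrt n : ℕ) : ℝ) + 1 :=
      (Real.real_sqrt_lt_nat_sqrt_succ (a := n)).le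
    linarith
  have hw : ∀ t ∈ Bd, 1 / (t : ℝ) ≤ 1 / ((Nat.sqrt n : ℕ) : ℝ) := by
    intro t ht
    rw [hBd, Finset.mem_filter, Finset.mem_Icc] at ht
    exact one_div_le_one_div_of_le (by linarith) (by exact_mod_cast ht.1.1)
  calc ∑ t ∈ Bd, (1 / (t : ℝ)) ≤ ∑ _t ∈ Bd, 1 / ((Nat.sqrt n : ℕ) : ℝ) := Finset.sum_le_sum hw
    _ = Bd.card * (1 / ((Nat.sqrt n : ℕ) : ℝ)) := by rw [Finset.sum_const, nsmul_eq_mul]
    _ ≤ 1 := by
        rw [mul_one_div, div_le_one (by linarith)]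
        linarith

end Pool.Agent.W_7d29a1_R13
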