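import Pool.Agent.W_7d29a1_R13.Bad13

/-!
The times before the half with a small gap are few, at every tilt of very strong disorder, for every
multiple of `log n` (helper13).
-/

set_option autoImplicit false

namespace Pool.Agent.W_7d29a1_R13

open MeasureTheory ProbabilityTheory Filter Topology Pool.Agent.W_MP_7d29a1_pr
  Pool.Agent.W_7d29a1_h46 Pool.Agent.W_7d29a1_h46u Pool.Agent.W_7d29a1_D2.B35
  Pool.Agent.W_7d29a1_Q29 Pool.Agent.W_7d29a1_P89

/-- Telescoping. -/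
lemma tel13 (f : ℕ → ℝ) (hf : ∀ u, 0 ≤ f u) (n K : ℕ) :
    ∑ t ∈ Finset.range n, f (t + K) ≤
      ∑ t ∈ Finset.range n, f t + ∑ u ∈ Finset.Ico n (n + K), f u := by
  have h1 : ∑ t ∈ Finset.range n, f (t + K) = ∑ u ∈ Finset.Ico K (n + K), f u := by
    rw [Finset.sum_Ico_eq_sum_range]
    have e : n + K - K = n := by omega
    rw [e]
    refine Finset.sum_congr rfl fun t _ => ?_
    rw [add_comm]
  rw [h1, Finset.sum_range_add_sum_Ico f (show n ≤ n + K by omega)]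
  refine Finset.sum_le_sum_of_subset_of_nonneg (fun u hu => ?_) fun u _ _ => hf u
  rw [Finset.mem_Ico] at hu
  exact Finset.mem_range.2 hu.2

variable {d : ℕ} {ρ : Measure ℝ} [IsProbabilityMeasure ρ]

/-- The times with a large slope. -/
theorem slopes13 (hd : 0 < d) (hρ : EM ρ) (β : ℝ) (h : Vec d) {C1 : ℝ}
    (hC1 : 0 ≤ C1) (hD : ∀ n : ℕ, 1 ≤ n → n * lam ρ β h - A ρ β h n ≤ C1 * (n : ℝ) ^ (3 / 4 : ℝ))
    {n K : ℕ} {G : ℝ} (hK : 1 ≤ K) (hKn : K ≤ n) :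
    (((Finset.range n).filter fun t => ¬ (A ρ β h (2 * n - t) - A ρ β h (2 * n - (t + K)) -
      K * lam ρ β h ≤ G)).card : ℝ) * G ≤
      K * (C1 * (n : ℝ) ^ (3 / 4 : ℝ)) + n * (C1 * (K : ℝ) ^ (3 / 4 : ℝ)) := by
  classical
  obtain ⟨F, hF⟩ : ∃ F : ℕ → ℝ, F = fun u => ((2 * n - u : ℕ) : ℝ) * lam ρ β h -
    A ρ β h (2 * n - u) := ⟨_, rfl⟩
  have hF0 : ∀ u, 0 ≤ F u := fun u => by
    rw [hF]
    have := A_le_lam hd hρ β h (2 * n - u)
    simp only
    linarith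
  obtain ⟨D1, hD1⟩ : ∃ D1 : ℝ, D1 = K * lam ρ β h - A ρ β h K := ⟨_, rfl⟩
  have hD1' : D1 ≤ C1 * (K : ℝ) ^ (3 / 4 : ℝ) := hD1 ▸ hD K hK
  have hD10 : 0 ≤ D1 := by
    have := A_le_lam hd hρ β h K
    rw [hD1]
    linarith
  have hsl : ∀ t, t < n → A ρ β h (2 * n - t) - A ρ β h (2 * n - (t + K)) - K * lam ρ β h =
      F (t + K) - F t := by
    intro t ht
    have e1 : ((2 * n - (t + K) : ℕ) : ℝ) = ((2 * n - t : ℕ) : ℝ) - K := by
      rw [Nat.cast_sub (by omega), Nat.cast_sub (by omega)]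
      push_cast
      ring
    rw [hF]
    simp only
    rw [e1]
    ring
  have hlow : ∀ t, t < n → 0 ≤ F (t + K) - F t + D1 := by
    intro t ht
    rw [← hsl t ht]
    have h1 := A_super13 (ρ := ρ) hd hρ β h (show K ≤ 2 * n - t by omega)
    have e1 : 2 * n - t - K = 2 * n - (t + K) := by omega
    rw [e1] at h1
    rw [hD1]
    linarith
  obtain ⟨Bd, hBd⟩ : ∃ Bd : Finset ℕ, Bd = (Finset.range n).filter fun t =>
    ¬ (A ρ β h (2 * n - t) - A ρ β h (2 * n - (t + K)) - K * lam ρ β h ≤ G) := ⟨_, rfl⟩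
  have hsub : Bd ⊆ Finset.range n := by
    rw [hBd]
    exact Finset.filter_subset _ _
  calc ((((Finset.range n).filter fun t => ¬ (A ρ β h (2 * n - t) - A ρ β h (2 * n - (t + K)) -
      K * lam ρ β h ≤ G)).card : ℝ)) * G
      = ∑ _t ∈ Bd, G := by
        rw [hBd, Finset.sum_const, nsmul_eq_mul]
    _ ≤ ∑ t ∈ Bd, (F (t + K) - F t + D1) := by
        refine Finset.sum_le_sum fun t ht => ?_
        rw [hBd, Finset.mem_filter] at ht
        have h1 := not_le.1 ht.2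
        rw [hsl t (Finset.mem_range.1 ht.1)] at h1
        linarith
    _ ≤ ∑ t ∈ Finset.range n, (F (t + K) - F t + D1) :=
        Finset.sum_le_sum_of_subset_of_nonneg hsub fun t ht _ => hlow t (Finset.mem_range.1 ht)
    _ = ∑ t ∈ Finset.range n, F (t + K) - ∑ t ∈ Finset.range n, F t + n * D1 := by
        rw [Finset.sum_add_distrib, Finset.sum_sub_distrib, Finset.sum_const, Finset.card_range,
          nsmul_eq_mul]
    _ ≤ ∑ u ∈ Finset.Ico n (n + K), F u + n * D1 := by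
        have := tel13 F hF0 n K
        linarith
    _ ≤ ∑ _u ∈ Finset.Ico n (n + K), C1 * (n : ℝ) ^ (3 / 4 : ℝ) +
        n * (C1 * (K : ℝ) ^ (3 / 4 : ℝ)) := by
        refine add_le_add (Finset.sum_le_sum fun u hu => ?_)
          (mul_le_mul_of_nonneg_left hD1' (Nat.cast_nonneg _))
        rw [Finset.mem_Ico] at hu
        rw [hF]
        simp only
        refine (hD (2 * n - u) (by omega)).trans (mul_le_mul_of_nonneg_left ?_ hC1)
        refine Real.rpow_le_rpow (Nat.cast_nonneg _) ?_ (by norm_num)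
        exact_mod_cast (by omega : 2 * n - u ≤ n)
    _ = _ := by
        rw [Finset.sum_const, Nat.card_Ico, nsmul_eq_mul]
        congr 2
        push_cast
        rw [Nat.add_sub_cancel_left]

/-- The number of localised times with a small gap and a good slope, at a fixed length. -/
theorem cnt13 (hd : 0 < d) (hρ : EM ρ) (P : Prm d) {L K n : ℕ}
    (hL : 1 ≤ L) (hnL : n + K ≤ L) {c0 g S U V : ℝ} (hc : 0 < c0) (hg0 : 0 < g)
    (hV : 0 ≤ V) (hUV : V ≤ Real.log c0 + U - S - 2 * g / c0) (z0 : Site d)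
    (Bd : Finset ℕ) (hBd : ∀ t ∈ Bd, t < n ∧
      c0 ≤ (law d ρ).real {η | ∃ y ∈ boxF d t, c0 * Z P.be P.h η t ≤ PP P.be P.h η t y} ∧
      A ρ P.be P.h L - A ρ P.be P.h t - A ρ P.be P.h (L - t) ≤ g ∧
      A ρ P.be P.h (L - t) - A ρ P.be P.h (L - (t + K)) - K * P.Lam ≤ S) :
    (Bd.card : ℝ) * ((law d ρ).real {η | Lk P K z0 U η} * (c0 / 2) * V ^ 2) ≤
      K * Va ρ P.be P.h L := by
  classical
  have hX2 := S98.X_sq_int (ρ := ρ) hd hρ P.be P.h hL
  have ho := orth89 hd hρ P.be P.h hX2 K n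
  refine le_trans ?_ ho
  calc (Bd.card : ℝ) * ((law d ρ).real {η | Lk P K z0 U η} * (c0 / 2) * V ^ 2)
      = ∑ _t ∈ Bd, (law d ρ).real {η | Lk P K z0 U η} * (c0 / 2) * V ^ 2 := by
        rw [Finset.sum_const, nsmul_eq_mul]
    _ ≤ ∑ t ∈ Bd, ∫ η, (cE ρ (Pa d (t + K)) (fun η => X P.be P.h η L) η -
        cE ρ (Pa d t) (fun η => X P.be P.h η L) η) ^ 2 ∂(law d ρ) := by
        refine Finset.sum_le_sum fun t ht => ?_
        obtain ⟨h1, h2, h3, h4⟩ := hBd t ht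
        exact one13 hd hρ P (n := L) hL (by omega) hc hg0 h3 h4 hV hUV z0 h2
    _ ≤ _ := by
        refine Finset.sum_le_sum_of_subset_of_nonneg ?_ fun t _ _ =>
          integral_nonneg fun _ => sq_nonneg _
        intro t ht
        exact Finset.mem_range.2 (hBd t ht).1

open Classical in
/-- **The times with a small gap**, at the length `2 n`. -/
theorem gapF13 (hd : 0 < d) (hρ : EM ρ) (β : ℝ) (h : Vec d) (hvs : VSD ρ β h) {c0 Γ ε : ℝ}
    (hc : 0 < c0) (hΓ : 0 < Γ) (hε : 0 < ε) :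
    ∀ᶠ n : ℕ in atTop, Va ρ β h (2 * n) ≤ (Γ * Real.log n) ^ 2 →
      (((Finset.range n).filter fun t =>
        c0 ≤ (law d ρ).real {η | ∃ y ∈ boxF d t, c0 * Z β h η t ≤ PP β h η t y} ∧
        A ρ β h (2 * n) - A ρ β h t - A ρ β h (2 * n - t) < 12 * (Γ * Real.log n)).card : ℝ) ≤
        ε * n := by
  obtain ⟨C2, hC2⟩ : ∃ C2 : ℝ, C2 = 2 + 24 / c0 := ⟨_, rfl⟩
  have hC20 : 0 < C2 := by
    rw [hC2]
    positivity
  obtain ⟨θ, hθ⟩ : ∃ θ : ℝ, θ = min 1 (1 / (16 * C2 * Γ)) := ⟨_, rfl⟩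
  have hθ0 : 0 < θ := hθ ▸ lt_min one_pos (by positivity)
  have hθ1 : θ ≤ 1 := hθ ▸ min_le_left _ _
  have hθa : θ * (C2 * Γ) ≤ 1 / 16 := by
    have h1 : θ ≤ 1 / (16 * C2 * Γ) := hθ ▸ min_le_right _ _
    have h2 := mul_le_mul_of_nonneg_right h1 (by positivity : 0 ≤ C2 * Γ)
    refine h2.trans (le_of_eq ?_)
    field_simp
  obtain ⟨k, y, u, hk1, hu, hpe⟩ := near13 hd hρ β h hvs hθ0 hθ1
  have hp := hpe.self_of_nhds
  obtain ⟨C1, hC1, hrate⟩ := rateC13 (ρ := ρ) hd hρ β (isCompact_singleton (x := h))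
  have hrate' := hrate h rfl
  obtain ⟨a, ha⟩ : ∃ a : ℝ, a = (2 * C2 * Γ + 1) * k := ⟨_, rfl⟩
  have hkR : (1 : ℝ) ≤ k := by exact_mod_cast hk1
  have ha0 : 0 < a := by
    rw [ha]
    positivity
  have hl : Tendsto (fun n : ℕ => Real.log n) atTop atTop :=
    Real.tendsto_log_atTop.comp tendsto_natCast_atTop_atTop
  have hE : 0 ≤ 4 * C1 / ε := by positivity
  filter_upwards [evb13 (u1 := u) hc hΓ hE ha0, hl.eventually_ge_atTop (1 / Γ),
    hl.eventually_ge_atTop (-(2 * Real.log ε)), hl.eventually_ge_atTop ((1 - Real.log c0) / Γ)]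
    with n hn hn1 hn2 hn3 hVa
  obtain ⟨e1, e2, e3, -, e5, e6, e7⟩ := hn
  have hnR : (4 : ℝ) ≤ n := by exact_mod_cast e1
  have hnpos : (0 : ℝ) < n := by linarith
  obtain ⟨l, hl'⟩ : ∃ l, l = Real.log n := ⟨_, rfl⟩
  rw [← hl'] at e2 e3 e5 e6 e7 hVa hn1 hn2 hn3 ⊢
  obtain ⟨G, hG⟩ : ∃ G, G = Γ * l := ⟨_, rfl⟩
  rw [← hG] at e5 e7 hVa ⊢
  have hl0 : 0 < l := by linarith
  have hG1 : 1 ≤ G := by
    rw [div_le_iff₀ hΓ] at hn1
    rw [hG]
    linarith
  have hG0 : 0 < G := by linarith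
  have hGc : 1 - Real.log c0 ≤ G := by
    rw [div_le_iff₀ hΓ] at hn3
    rw [hG]
    linarith
  -- the number of lucky segments
  obtain ⟨r, hr⟩ : ∃ r : ℕ, r = ⌈C2 * G / u⌉₊ := ⟨_, rfl⟩
  have hu0 : 0 < u := by linarith
  have hr1 : C2 * G ≤ r * u := by
    have h1 := Nat.le_ceil (C2 * G / u)
    rwa [← hr, div_le_iff₀ hu0] at h1
  have hr1' : 1 ≤ r := by
    rw [hr]
    exact Nat.one_le_ceil_iff.2 (by positivity)
  have hr2 : (r : ℝ) ≤ C2 * G / u + 1 := by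
    have h1 := (Nat.ceil_lt_add_one (show (0 : ℝ) ≤ C2 * G / u by positivity)).le
    rwa [← hr] at h1
  have hr3 : r * u ≤ C2 * G + u := by
    have h2 := mul_le_mul_of_nonneg_right hr2 hu0.le
    have h3 : (C2 * G / u + 1) * u = C2 * G + u := by field_simp
    rwa [h3] at h2
  have hr4 : (r : ℝ) ≤ 2 * C2 * G + 1 := by
    have h1 : C2 * G / u ≤ 2 * C2 * G := by
      rw [div_le_iff₀ hu0]
      have h2 : 0 < C2 * G := by positivity
      nlinarith
    linarith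
  have hr5 : (r : ℝ) ≤ (2 * C2 * Γ + 1) * l := by
    have h1 : 2 * C2 * G + 1 ≤ (2 * C2 * Γ + 1) * l := by
      rw [hG]
      linarith
    linarith
  have hrk1 : 1 ≤ r * k := Nat.mul_pos hr1' hk1
  have hrk : ((r * k : ℕ) : ℝ) ≤ a * l := by
    push_cast
    calc (r : ℝ) * k ≤ (2 * C2 * Γ + 1) * l * k :=
          mul_le_mul_of_nonneg_right hr5 (by linarith)
      _ = a * l := by
          rw [ha]
          ring
  -- the probability
  have hprob : (n : ℝ) ^ (-(1 / 8 : ℝ)) ≤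
      (law d ρ).real {η : Env d | Lk (pr13 ρ β h) (r * k) (r • y) ((r : ℝ) * u) η} := by
    refine le_trans ?_ (Pool.Agent.W_7d29a1_P78.concat78 (pr13 ρ β h) k y u r)
    refine le_trans ?_ (pow_le_pow_left₀ (Real.exp_pos _).le hp r)
    rw [← Real.exp_nat_mul, Real.rpow_def_of_pos hnpos, Real.exp_le_exp, ← hl']
    have h1 : θ * (r * u) ≤ θ * (C2 * G + u) := mul_le_mul_of_nonneg_left hr3 hθ0.le
    have h2 : θ * (C2 * G) ≤ 1 / 16 * l := by
      have h3 := mul_le_mul_of_nonneg_right hθa hl0.le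
      have h4 : θ * (C2 * G) = θ * (C2 * Γ) * l := by
        rw [hG]
        ring
      linarith
    have h3 : θ * u ≤ 1 * u := mul_le_mul_of_nonneg_right hθ1 hu0.le
    have h4 : (r : ℝ) * -(θ * u) = -(θ * (r * u)) := by ring
    rw [h4]
    linarith
  -- the length of the window
  have hpw : 0 ≤ 4 * C1 / ε * (n : ℝ) ^ (3 / 4 : ℝ) := by positivity
  have h2al : 2 * (a * l) ≤ n := by
    have h1 : 1 * (2 * (a * l)) ≤ (4 * C1 / ε * (n : ℝ) ^ (3 / 4 : ℝ) + 1) * (2 * (a * l)) :=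
      mul_le_mul_of_nonneg_right (by linarith) (by positivity)
    linarith
  have hal0 : 0 < a * l := by positivity
  have hrkn : r * k ≤ n := by
    have : ((r * k : ℕ) : ℝ) ≤ n := by linarith
    exact_mod_cast this
  -- the slopes
  have hslp := slopes13 (ρ := ρ) hd hρ β h hC1 hrate' (n := n) (K := r * k) (G := G) hrk1 hrkn
  have hS1 : (((Finset.range n).filter fun t => ¬ (A ρ β h (2 * n - t) -
      A ρ β h (2 * n - (t + r * k)) - ((r * k : ℕ) : ℝ) * lam ρ β h ≤ G)).card : ℝ) ≤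
      ε / 2 * n := by
    have h1 : ((r * k : ℕ) : ℝ) * (C1 * (n : ℝ) ^ (3 / 4 : ℝ)) ≤ ε / 8 * n := by
      have h2 : ((r * k : ℕ) : ℝ) * (C1 * (n : ℝ) ^ (3 / 4 : ℝ)) ≤
          a * l * (C1 * (n : ℝ) ^ (3 / 4 : ℝ)) := mul_le_mul_of_nonneg_right hrk (by positivity)
      have h3 : 4 * C1 / ε * (n : ℝ) ^ (3 / 4 : ℝ) * (2 * (a * l)) ≤ n := by
        refine le_trans (mul_le_mul_of_nonneg_right ?_ (by positivity)) e6
        linarith
      have h4 : 4 * C1 / ε * (n : ℝ) ^ (3 / 4 : ℝ) * (2 * (a * l)) =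
          8 / ε * (a * l * (C1 * (n : ℝ) ^ (3 / 4 : ℝ))) := by
        field_simp
        ring
      rw [h4] at h3
      have h5 := mul_le_mul_of_nonneg_left h3 (show 0 ≤ ε / 8 by positivity)
      have h6 : ε / 8 * (8 / ε * (a * l * (C1 * (n : ℝ) ^ (3 / 4 : ℝ)))) =
          a * l * (C1 * (n : ℝ) ^ (3 / 4 : ℝ)) := by
        field_simp
      rw [h6] at h5
      linarith
    have h7 : (n : ℝ) * (C1 * ((r * k : ℕ) : ℝ) ^ (3 / 4 : ℝ)) ≤ ε / 4 * n * G := by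
      have h8 : C1 * ((r * k : ℕ) : ℝ) ^ (3 / 4 : ℝ) ≤ C1 * (a * l) ^ (3 / 4 : ℝ) :=
        mul_le_mul_of_nonneg_left (Real.rpow_le_rpow (Nat.cast_nonneg _) hrk (by norm_num)) hC1
      have h9 : C1 * (a * l) ^ (3 / 4 : ℝ) ≤ ε / 4 * G := by
        have h10 := mul_le_mul_of_nonneg_left e5 (show 0 ≤ ε / 4 by positivity)
        have h11 : ε / 4 * (4 * C1 / ε * (a * l) ^ (3 / 4 : ℝ)) = C1 * (a * l) ^ (3 / 4 : ℝ) := by
          field_simp
        rwa [h11] at h10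
      have h12 := mul_le_mul_of_nonneg_left (h8.trans h9) hnpos.le
      linarith
    have h8 : ε / 8 * n ≤ ε / 8 * n * G := le_mul_of_one_le_right (by positivity) hG1
    have h9 := hslp.trans (add_le_add (h1.trans h8) h7)
    have h10 : ε / 8 * n * G + ε / 4 * n * G ≤ ε / 2 * n * G := by
      have : 0 ≤ ε * n * G := by positivity
      linarith
    exact le_of_mul_le_mul_right (h9.trans h10) hG0
  -- the windows
  obtain ⟨Bd, hBd⟩ : ∃ Bd : Finset ℕ, Bd = (Finset.range n).filter (fun t =>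
      (c0 ≤ (law d ρ).real {η | ∃ y ∈ boxF d t, c0 * Z β h η t ≤ PP β h η t y} ∧
        A ρ β h (2 * n) - A ρ β h t - A ρ β h (2 * n - t) < 12 * G) ∧
      (A ρ β h (2 * n - t) - A ρ β h (2 * n - (t + r * k)) -
        ((r * k : ℕ) : ℝ) * lam ρ β h ≤ G)) := ⟨_, rfl⟩
  have hcount := cnt13 hd hρ (pr13 ρ β h) (L := 2 * n) (K := r * k) (n := n) (by omega)
    (by omega) (c0 := c0) (g := 12 * G) (S := G) (U := r * u) (V := 1) hc (by positivity)
    zero_le_one (by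
      have h1 : 2 * (12 * G) / c0 = 24 * G / c0 := by ring
      have h2 : C2 * G = 2 * G + 24 * G / c0 := by
        rw [hC2]
        ring
      rw [h1]
      linarith) (r • y) Bd (by
      intro t ht
      rw [hBd, Finset.mem_filter] at ht
      exact ⟨Finset.mem_range.1 ht.1, ht.2.1.1, ht.2.1.2.le, ht.2.2⟩)
  have hcard : (Bd.card : ℝ) ≤ ε / 2 * n := by
    obtain ⟨p, hp'⟩ : ∃ p, p = (law d ρ).real
        {η : Env d | Lk (pr13 ρ β h) (r * k) (r • y) ((r : ℝ) * u) η} := ⟨_, rfl⟩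
    rw [← hp'] at hcount hprob
    have h1 : ((r * k : ℕ) : ℝ) * Va ρ β h (2 * n) ≤ a * l * G ^ 2 :=
      mul_le_mul hrk hVa (integral_nonneg fun _ => sq_nonneg _) (by positivity)
    have h2 : (Bd.card : ℝ) * (p * (c0 / 2) * 1 ^ 2) ≤ a * l * G ^ 2 := hcount.trans h1
    have h3 : (Bd.card : ℝ) * ((n : ℝ) ^ (-(1 / 8 : ℝ)) * (c0 / 2)) ≤ a * l * G ^ 2 := by
      refine le_trans (mul_le_mul_of_nonneg_left ?_ (Nat.cast_nonneg _)) h2
      rw [one_pow, mul_one]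
      exact mul_le_mul_of_nonneg_right hprob (by positivity)
    have h4 : (n : ℝ) ^ (-(1 / 8 : ℝ)) * (n : ℝ) ^ (1 / 8 : ℝ) = 1 := by
      rw [← Real.rpow_add hnpos]
      norm_num
    have h5 : 0 ≤ 2 / c0 * (n : ℝ) ^ (1 / 8 : ℝ) := by positivity
    have h6 := mul_le_mul_of_nonneg_right h3 h5
    have h7 : (Bd.card : ℝ) * ((n : ℝ) ^ (-(1 / 8 : ℝ)) * (c0 / 2)) *
        (2 / c0 * (n : ℝ) ^ (1 / 8 : ℝ)) =
        Bd.card * ((n : ℝ) ^ (-(1 / 8 : ℝ)) * (n : ℝ) ^ (1 / 8 : ℝ)) := by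
      field_simp
    rw [h7, h4, mul_one] at h6
    have h8 : (Bd.card : ℝ) ≤ (n : ℝ) ^ (1 / 2 : ℝ) / 2 := by
      refine h6.trans (le_trans (le_of_eq ?_) e7)
      ring
    have h9 : (n : ℝ) ^ (1 / 2 : ℝ) ≤ ε * n := by
      have h10 : (n : ℝ) ^ (1 / 2 : ℝ) * (n : ℝ) ^ (1 / 2 : ℝ) = n := by
        rw [← Real.rpow_add hnpos]
        norm_num
      have h11 : 1 ≤ ε * (n : ℝ) ^ (1 / 2 : ℝ) := by
        have h12 : Real.log (ε * (n : ℝ) ^ (1 / 2 : ℝ)) = Real.log ε + 1 / 2 * l := by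
          rw [Real.log_mul hε.ne' (by positivity), Real.log_rpow hnpos, hl']
        have h13 : 0 ≤ Real.log (ε * (n : ℝ) ^ (1 / 2 : ℝ)) := by
          rw [h12]
          linarith
        exact (Real.log_nonneg_iff (by positivity)).1 h13
      have h13 := mul_le_mul_of_nonneg_right h11 (show 0 ≤ (n : ℝ) ^ (1 / 2 : ℝ) by positivity)
      rw [one_mul, mul_assoc, h10] at h13
      exact h13
    linarith
  -- conclusion
  have hsub : ((Finset.range n).filter fun t =>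
        c0 ≤ (law d ρ).real {η | ∃ y ∈ boxF d t, c0 * Z β h η t ≤ PP β h η t y} ∧
        A ρ β h (2 * n) - A ρ β h t - A ρ β h (2 * n - t) < 12 * G) ⊆
      ((Finset.range n).filter fun t => ¬ (A ρ β h (2 * n - t) -
        A ρ β h (2 * n - (t + r * k)) - ((r * k : ℕ) : ℝ) * lam ρ β h ≤ G)) ∪ Bd := by
    intro t ht
    rw [Finset.mem_filter] at ht
    rw [Finset.mem_union, Finset.mem_filter, hBd, Finset.mem_filter]
    by_cases h1 : A ρ β h (2 * n - t) - A ρ β h (2 * n - (t + r * k)) -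
        ((r * k : ℕ) : ℝ) * lam ρ β h ≤ G
    · exact Or.inr ⟨ht.1, ht.2, h1⟩
    · exact Or.inl ⟨ht.1, h1⟩
  have hcc := (Finset.card_le_card hsub).trans (Finset.card_union_le _ _)
  have hcc' : (((Finset.range n).filter fun t =>
        c0 ≤ (law d ρ).real {η | ∃ y ∈ boxF d t, c0 * Z β h η t ≤ PP β h η t y} ∧
        A ρ β h (2 * n) - A ρ β h t - A ρ β h (2 * n - t) < 12 * G).card : ℝ) ≤
      (((Finset.range n).filter fun t => ¬ (A ρ β h (2 * n - t) -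
        A ρ β h (2 * n - (t + r * k)) - ((r * k : ℕ) : ℝ) * lam ρ β h ≤ G)).card : ℝ) +
        (Bd.card : ℝ) := by
    exact_mod_cast hcc
  refine hcc'.trans ?_
  linarith

end Pool.Agent.W_7d29a1_R13
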