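import Pool.Agent.W_7d29a1_R13.MainLL13

/-!
Fluctuations against wandering with every constant, the average of the variances instead of their
maximum (helper13).
-/

set_option autoImplicit false

namespace Pool.Agent.W_7d29a1_R13

open MeasureTheory ProbabilityTheory Filter Topology Pool.Agent.W_MP_7d29a1_pr
  Pool.Agent.W_7d29a1_h46 Pool.Agent.W_7d29a1_h46u Pool.Agent.W_7d29a1_D2.B35
  Pool.Agent.W_7d29a1_Q29 Pool.Agent.W_7d29a1_P89

variable {d : ℕ} {ρ : Measure ℝ} [IsProbabilityMeasure ρ]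

/-- The sum of the squares at the time `0`. -/
lemma f013 (hd : 0 < d) (β : ℝ) (h : Vec d) (n : ℕ) : 1 ≤ ∫ η, ∑ y ∈ boxF d n,
    (cE ρ (Pa d 0) (Qt β h n 0 y) η) ^ 2 ∂(law d ρ) := by
  have e1 : ∀ η : Env d, Qt β h n 0 0 η = 1 := by
    intro η
    have e2 := Qt_sum_box39 hd β h (L := n) (t := 0) (r := 0) (by omega) le_rfl η
    have e3 : boxF d 0 = {0} := by
      ext y
      rw [mem_boxF, Finset.mem_singleton]
      constructor
      · intro hy
        ext i
        have := hy i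
        simpa using this
      · intro hy i
        rw [hy]
        simp
    rwa [e3, Finset.sum_singleton] at e2
  have e4 : ∀ η : Env d, (1 : ℝ) ≤ ∑ y ∈ boxF d n, (cE ρ (Pa d 0) (Qt β h n 0 y) η) ^ 2 := by
    intro η
    have e5 : (cE ρ (Pa d 0) (Qt β h n 0 0) η) ^ 2 = 1 := by
      have : cE ρ (Pa d 0) (Qt β h n 0 0) η = 1 := by
        unfold cE
        simp [e1]
      rw [this]
      norm_num
    rw [← e5]
    exact Finset.single_le_sum (f := fun y => (cE ρ (Pa d 0) (Qt β h n 0 y) η) ^ 2)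
      (fun y _ => sq_nonneg _) (zero_mem_boxF _)
  calc (1 : ℝ) = ∫ _η : Env d, (1 : ℝ) ∂(law d ρ) := by simp
    _ ≤ _ := integral_mono (integrable_const _)
        (integrable_finsetSum _ fun y _ => int_cE_sq72 (by omega) h y _) e4

open Classical in
/-- **The main inequality with every constant**, with the average of the variances. -/
theorem mainAA13 (hd : 0 < d) (hρ : EM ρ) (hnc : ∀ c : ℝ, ρ {c} ≠ 1) {β : ℝ} (hβ : 0 < β)
    (h : Vec d) (hvs : VSD ρ β h) : ∃ c : ℝ, 0 < c ∧ ∀ C : ℝ, ∀ᶠ n : ℕ in atTop, ∀ K N : ℝ, 0 < N →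
      Va ρ β h (2 * n) ≤ K → ∑ m ∈ Finset.range (2 * n), Va ρ β h m ≤ K * n →
      (((Finset.range n).filter fun t => ¬ Win ρ β h (2 * n) t N (1 / 32)).card : ℝ) ≤ c * n →
        C * Real.log n ≤ K * Real.sqrt (N / n) := by
  obtain ⟨g, hg⟩ : ∃ g : ℝ, g = Real.log (Phi h) + Real.log (∫ t, Real.exp (β * t) ∂ρ) -
    lam ρ β h := ⟨_, rfl⟩
  have hg0 : 0 < g := by
    unfold VSD at hvs
    linarith
  obtain ⟨c₀, hc₀, hL⟩ := Csy42.loc42 (ρ := ρ) hd hρ β g hg0
  have hL := hL h (by linarith)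
  obtain ⟨C₂, hC₂, hB⟩ := npb98 (ρ := ρ) hd hρ hnc hβ
  obtain ⟨C₁, hC₁, hF⟩ := npf98 (ρ := ρ) hd hρ hnc hβ
  have hU := upP85 (ρ := ρ) hd hρ β
  obtain ⟨D, hD⟩ : ∃ D : ℝ, D = 8 * (C₂ + 1) / c₀ := ⟨_, rfl⟩
  have hD0 : 0 < D := by
    rw [hD]
    positivity
  obtain ⟨κ, hκ⟩ : ∃ κ : ℝ, κ = 8 / c₀ + 1 := ⟨_, rfl⟩
  have hκ1 : 1 ≤ κ := by
    have : 0 < 8 / c₀ := by positivity
    linarith
  have hκ0 : 0 < κ := by linarith
  have hκc : 1 ≤ c₀ / 8 * κ := by
    have : c₀ / 8 * κ = 1 + c₀ / 8 := by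
      rw [hκ]
      field_simp
    linarith
  refine ⟨c₀ / 8, by positivity, fun C0 => ?_⟩
  obtain ⟨C, hC⟩ : ∃ C : ℝ, C = max C0 1 := ⟨_, rfl⟩
  have hC1 : 1 ≤ C := by
    rw [hC]
    exact le_max_right _ _
  have hCC : C0 ≤ C := by
    rw [hC]
    exact le_max_left _ _
  obtain ⟨s, hs⟩ : ∃ s : ℝ, s = Real.sqrt (2 * D * κ) := ⟨_, rfl⟩
  have hs0 : 0 < s := by
    rw [hs]
    exact Real.sqrt_pos.2 (by positivity)
  have hs2 : s ^ 2 = 2 * D * κ := by
    rw [hs]
    exact Real.sq_sqrt (by positivity)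
  obtain ⟨Γ, hΓ⟩ : ∃ Γ : ℝ, Γ = C * s := ⟨_, rfl⟩
  have hΓ0 : 0 < Γ := by
    rw [hΓ]
    positivity
  have hl : Tendsto (fun n : ℕ => Real.log n) atTop atTop :=
    Real.tendsto_log_atTop.comp tendsto_natCast_atTop_atTop
  filter_upwards [gapF13 (ρ := ρ) hd hρ β h hvs hc₀ hΓ0 (show 0 < c₀ / 8 by positivity),
    hl.eventually_ge_atTop 1, hl.eventually_ge_atTop (1 / Γ),
    tendsto_natCast_atTop_atTop.eventually_ge_atTop (8 / c₀)] with
    n hgap hl1 hl2 hn8 K N hN hV2 hVs hW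
  have hn1 : 1 ≤ n := by
    rcases Nat.eq_zero_or_pos n with h0 | h0
    · exfalso
      rw [h0] at hl1
      norm_num at hl1
    · exact h0
  have hn' : (0 : ℝ) < n := by exact_mod_cast hn1
  obtain ⟨l, hl'⟩ : ∃ l, l = Real.log n := ⟨_, rfl⟩
  rw [← hl'] at hgap hl1 hl2 ⊢
  obtain ⟨G, hG⟩ : ∃ G, G = Γ * l := ⟨_, rfl⟩
  rw [← hG] at hgap
  have hl0 : 0 < l := by linarith
  have hG1 : 1 ≤ G := by
    rw [div_le_iff₀ hΓ0] at hl2
    rw [hG]
    linarith
  obtain ⟨Y, hY⟩ : ∃ Y : ℝ, Y = K * Real.sqrt (N / n) := ⟨_, rfl⟩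
  rw [← hY]
  have hNn : 0 < N / n := by positivity
  have hsN : 0 < Real.sqrt (N / n) := Real.sqrt_pos.2 hNn
  have hK : 0 < K := by
    have h1 := f013 (ρ := ρ) hd β h (2 * n)
    have h2 : ∫ η, ∑ y ∈ boxF d (2 * n), (cE ρ (Pa d 0) (Qt β h (2 * n) 0 y) η) ^ 2 ∂(law d ρ) ≤
        ∑ t ∈ Finset.range (2 * n), ∫ η, ∑ y ∈ boxF d (2 * n),
          (cE ρ (Pa d t) (Qt β h (2 * n) t y) η) ^ 2 ∂(law d ρ) :=
      Finset.single_le_sum (f := fun t => ∫ η, ∑ y ∈ boxF d (2 * n),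
          (cE ρ (Pa d t) (Qt β h (2 * n) t y) η) ^ 2 ∂(law d ρ))
        (fun t _ => sum_sq_nonneg h (2 * n) t (Pa d t)) (Finset.mem_range.2 (by omega))
    have h3 := (h1.trans h2).trans (hF h (2 * n))
    have h4 : C₁ * Va ρ β h (2 * n) ≤ C₁ * K := mul_le_mul_of_nonneg_left hV2 hC₁
    have h5 : 0 < C₁ * K := by linarith
    exact pos_of_mul_pos_right h5 hC₁
  have hYpos : 0 < Y := by
    rw [hY]
    positivity
  suffices hkey : G ≤ s * Y by
    rw [hG, hΓ] at hkey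
    have h1 : s * (C * l) ≤ s * Y := by linarith
    have h2 := le_of_mul_le_mul_left h1 hs0
    have h3 : C0 * l ≤ C * l := mul_le_mul_of_nonneg_right hCC hl0.le
    linarith
  -- the bad times
  obtain ⟨K1, hK1⟩ : ∃ K1 : ℝ, K1 = κ * K := ⟨_, rfl⟩
  have hK10 : 0 < K1 := by
    rw [hK1]
    positivity
  have hKK1 : K ≤ K1 := by
    rw [hK1]
    exact le_mul_of_one_le_left hK.le hκ1
  obtain ⟨S, hS'⟩ : ∃ S : ℝ, S = D * K / n := ⟨_, rfl⟩
  have hS : 0 < S := by
    rw [hS']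
    positivity
  obtain ⟨b, hb⟩ : ∃ b : ℕ → ℝ, b = fun t =>
    ∫ η, ∑ y ∈ boxF d (2 * n), (cE ρ (Pa d t)ᶜ (Qt β h (2 * n) t y) η) ^ 2 ∂(law d ρ) := ⟨_, rfl⟩
  have hbn : ∀ t, 0 ≤ b t := fun t => by
    rw [hb]
    exact sum_sq_nonneg h (2 * n) t (Pa d t)ᶜ
  have hsumb : ∑ t ∈ Finset.Ico 1 n, b t ≤ (C₂ + 1) * K := by
    have h1 : ∑ t ∈ Finset.Ico 1 n, b t ≤ ∑ t ∈ Finset.Icc 1 (2 * n), b t :=
      Finset.sum_le_sum_of_subset_of_nonneg (fun t ht => by
        rw [Finset.mem_Ico] at ht; rw [Finset.mem_Icc]; omega) fun t _ _ => hbn t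
    have h2 := hB h (2 * n)
    have h3 : C₂ * Va ρ β h (2 * n) ≤ C₂ * K := mul_le_mul_of_nonneg_left hV2 hC₂
    rw [hb] at h1 ⊢
    exact h1.trans (h2.trans (h3.trans (by linarith)))
  have hbadb : (((Finset.Ico 1 n).filter fun t => ¬ b t ≤ S).card : ℝ) ≤ c₀ / 8 * n := by
    have hMk := card_markov (s := Finset.Ico 1 n) (fun t _ => hbn t) hS hsumb
    have h1 : (C₂ + 1) * K = c₀ / 8 * n * S := by
      rw [hS', hD]
      field_simp
    rw [h1] at hMk
    exact le_of_mul_le_mul_right hMk hS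
  have hKn : K * n ≤ c₀ / 8 * n * K1 := by
    have h1 : 1 * (K * n) ≤ c₀ / 8 * κ * (K * n) := mul_le_mul_of_nonneg_right hκc (by positivity)
    have h2 : c₀ / 8 * κ * (K * n) = c₀ / 8 * n * K1 := by
      rw [hK1]
      ring
    linarith
  have hbadV : (((Finset.range n).filter fun t => ¬ Va ρ β h t ≤ K1).card : ℝ) ≤ c₀ / 8 * n := by
    have h1 : ∑ t ∈ Finset.range n, Va ρ β h t ≤ K * n :=
      (Finset.sum_le_sum_of_subset_of_nonneg (Finset.range_mono (by omega))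
        fun t _ _ => va_nonneg h t).trans hVs
    have hMk := card_markov (s := Finset.range n) (fun t _ => va_nonneg (ρ := ρ) (β := β) h t)
      hK10 h1
    exact le_of_mul_le_mul_right (hMk.trans hKn) hK10
  have hbadV2 : (((Finset.Ico 1 n).filter fun t => ¬ Va ρ β h (2 * n - t) ≤ K1).card : ℝ) ≤
      c₀ / 8 * n := by
    have h1 : ∑ t ∈ Finset.Ico 1 n, Va ρ β h (2 * n - t) ≤ K * n := by
      have h2 : ∑ t ∈ Finset.Ico 1 n, Va ρ β h (2 * n - t) =
          ∑ m ∈ (Finset.Ico 1 n).image (fun t => 2 * n - t), Va ρ β h m := by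
        rw [Finset.sum_image]
        intro x hx y hy hxy
        rw [Finset.mem_coe, Finset.mem_Ico] at hx hy
        simp only at hxy
        omega
      rw [h2]
      refine (Finset.sum_le_sum_of_subset_of_nonneg (fun m hm => ?_)
        fun t _ _ => va_nonneg h t).trans hVs
      rw [Finset.mem_image] at hm
      obtain ⟨t, ht, rfl⟩ := hm
      rw [Finset.mem_Ico] at ht
      rw [Finset.mem_range]
      omega
    have hMk := card_markov (s := Finset.Ico 1 n)
      (fun t _ => va_nonneg (ρ := ρ) (β := β) h (2 * n - t)) hK10 h1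
    exact le_of_mul_le_mul_right (hMk.trans hKn) hK10
  have hone : (1 : ℝ) ≤ c₀ / 8 * n := by
    rw [div_le_iff₀ hc₀] at hn8
    linarith
  -- a good time
  have hgood : ∀ Q : ℕ → Prop,
      (((Finset.range n).filter fun t => (c₀ ≤ (law d ρ).real
        {η | ∃ y ∈ boxF d t, c₀ * Z β h η t ≤ PP β h η t y}) ∧ ¬ Q t).card : ℝ) ≤ c₀ / 8 * n →
      ∃ t, 1 ≤ t ∧ t < n ∧ Q t ∧ b t ≤ S ∧ Win ρ β h (2 * n) t N (1 / 32) ∧
        Va ρ β h t ≤ K1 ∧ Va ρ β h (2 * n - t) ≤ K1 := by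
    intro Q hQ
    by_contra hcon
    push Not at hcon
    have hsub : ((Finset.range n).filter fun t =>
        c₀ ≤ (law d ρ).real {η | ∃ y ∈ boxF d t, c₀ * Z β h η t ≤ PP β h η t y}) ⊆
        ((((((Finset.range n).filter fun t => (c₀ ≤ (law d ρ).real
          {η | ∃ y ∈ boxF d t, c₀ * Z β h η t ≤ PP β h η t y}) ∧ ¬ Q t) ∪
        ((Finset.Ico 1 n).filter fun t => ¬ b t ≤ S)) ∪
        ((Finset.range n).filter fun t => ¬ Win ρ β h (2 * n) t N (1 / 32))) ∪
        ((Finset.range n).filter fun t => ¬ Va ρ β h t ≤ K1)) ∪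
        ((Finset.Ico 1 n).filter fun t => ¬ Va ρ β h (2 * n - t) ≤ K1)) ∪ {0} := by
      intro t ht
      rw [Finset.mem_filter] at ht
      have htn := Finset.mem_range.1 ht.1
      rw [Finset.mem_union, Finset.mem_union, Finset.mem_union, Finset.mem_union,
        Finset.mem_union, Finset.mem_filter, Finset.mem_filter, Finset.mem_filter,
        Finset.mem_filter, Finset.mem_filter, Finset.mem_singleton]
      rcases Nat.eq_zero_or_pos t with h0 | h0
      · exact Or.inr h0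
      have htI : t ∈ Finset.Ico 1 n := Finset.mem_Ico.2 ⟨h0, htn⟩
      by_cases h1 : Q t
      · by_cases h2 : b t ≤ S
        · by_cases h3 : Win ρ β h (2 * n) t N (1 / 32)
          · by_cases h4 : Va ρ β h t ≤ K1
            · exact Or.inl (Or.inr ⟨htI, not_le.2 (hcon t h0 htn h1 h2 h3 h4)⟩)
            · exact Or.inl (Or.inl (Or.inr ⟨ht.1, h4⟩))
          · exact Or.inl (Or.inl (Or.inl (Or.inr ⟨ht.1, h3⟩)))
        · exact Or.inl (Or.inl (Or.inl (Or.inl (Or.inr ⟨htI, h2⟩))))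
      · exact Or.inl (Or.inl (Or.inl (Or.inl (Or.inl ⟨ht.1, ht.2, h1⟩))))
    have hcard := ((Finset.card_le_card hsub).trans (Finset.card_union_le _ _)).trans
      (Nat.add_le_add_right ((Finset.card_union_le _ _).trans
        (Nat.add_le_add_right ((Finset.card_union_le _ _).trans
          (Nat.add_le_add_right ((Finset.card_union_le _ _).trans
            (Nat.add_le_add_right (Finset.card_union_le _ _) _)) _)) _)) _)
    rw [Finset.card_singleton] at hcard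
    have hcard' : (((Finset.range n).filter fun t =>
        c₀ ≤ (law d ρ).real {η | ∃ y ∈ boxF d t, c₀ * Z β h η t ≤ PP β h η t y}).card : ℝ) ≤
        (((Finset.range n).filter fun t => (c₀ ≤ (law d ρ).real
          {η | ∃ y ∈ boxF d t, c₀ * Z β h η t ≤ PP β h η t y}) ∧ ¬ Q t).card : ℝ) +
        (((Finset.Ico 1 n).filter fun t => ¬ b t ≤ S).card : ℝ) +
        (((Finset.range n).filter fun t => ¬ Win ρ β h (2 * n) t N (1 / 32)).card : ℝ) +
        (((Finset.range n).filter fun t => ¬ Va ρ β h t ≤ K1).card : ℝ) +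
        (((Finset.Ico 1 n).filter fun t => ¬ Va ρ β h (2 * n - t) ≤ K1).card : ℝ) + 1 := by
      exact_mod_cast hcard
    have h5 := hL n
    have h6 : 0 < c₀ * n := by positivity
    linarith
  -- `K N` is at least a multiple of `n`
  have hKN : ∀ t, t < n → b t ≤ S → Win ρ β h (2 * n) t N (1 / 32) →
      1 ≤ 2 * D * (K * (N / n)) := by
    intro t ht h1 h2
    rw [hb] at h1
    have h3 := win_np72 (show t ≤ 2 * n by omega) h h2 (Pa d t)ᶜ h1
    have h4 : 2 * D * (K * (N / n)) = 2 * (N * S) := by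
      rw [hS']
      field_simp
    rw [h4]
    linarith
  rcases lt_or_ge (G ^ 2) K1 with hcase | hcase
  · -- `K` is large
    obtain ⟨t, -, ht2, -, ht3, ht4, -, -⟩ := hgood (fun _ => True) (by simp; positivity)
    have h1 := hKN t ht2 ht3 ht4
    have h2 : G ^ 2 ≤ (s * Y) ^ 2 := by
      have h3 : (s * Y) ^ 2 = 2 * D * (K * (N / n)) * K1 := by
        rw [hY, mul_pow, mul_pow, Real.sq_sqrt hNn.le, hs2, hK1]
        ring
      rw [h3]
      have h4 : 1 * K1 ≤ 2 * D * (K * (N / n)) * K1 := mul_le_mul_of_nonneg_right h1 hK10.le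
      linarith
    exact le_of_sq_le_sq h2 (by positivity)
  · -- `K` is small
    have hg2 := hgap ((hV2.trans hKK1).trans hcase)
    obtain ⟨t, ht1, ht2, hQ, ht3, ht4, ht5, ht6⟩ := hgood
      (fun t => 12 * G ≤ A ρ β h (2 * n) - A ρ β h t - A ρ β h (2 * n - t)) (by
        simpa only [not_le] using hg2)
    rw [hb] at ht3
    have h1 := hU K1 N S h (2 * n) t (by omega) (hV2.trans hKK1) ht5 ht6 ht4 ht3
    have h2 : Real.sqrt K1 ≤ G := by
      rw [Real.sqrt_le_left (by linarith)]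
      exact hcase
    have h3 : Real.sqrt (K1 * N * S) ≤ s * Y := by
      rw [Real.sqrt_le_left (by positivity), hY, mul_pow, mul_pow, Real.sq_sqrt hNn.le, hs2, hS',
        hK1]
      have h4 : 2 * D * κ * (K ^ 2 * (N / n)) = 2 * (κ * K * N * (D * K / n)) := by
        field_simp
      rw [h4]
      have h5 : 0 < κ * K * N * (D * K / n) := by positivity
      linarith
    linarith

end Pool.Agent.W_7d29a1_R13
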