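import Pool.Agent.W_7d29a1_R13.GapF13
import Pool.Agent.W_7d29a1_Q29.Clos85
import Pool.Agent.W_7d29a1_Q29.MainL72

/-!
Fluctuations against wandering with every constant, at every tilt of very strong disorder (helper13,
after helper72).
-/

set_option autoImplicit false

namespace Pool.Agent.W_7d29a1_R13

open MeasureTheory ProbabilityTheory Filter Topology Pool.Agent.W_MP_7d29a1_pr
  Pool.Agent.W_7d29a1_h46 Pool.Agent.W_7d29a1_h46u Pool.Agent.W_7d29a1_D2.B35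
  Pool.Agent.W_7d29a1_Q29 Pool.Agent.W_7d29a1_P89

variable {d : ℕ} {ρ : Measure ℝ} [IsProbabilityMeasure ρ]

open Classical in
/-- **The main inequality with every constant.** -/
theorem mainLL13 (hd : 0 < d) (hρ : EM ρ) (hnc : ∀ c : ℝ, ρ {c} ≠ 1) {β : ℝ} (hβ : 0 < β)
    (h : Vec d) (hvs : VSD ρ β h) : ∃ c : ℝ, 0 < c ∧ ∀ C : ℝ, ∀ᶠ n : ℕ in atTop, ∀ K N : ℝ, 0 < N →
      (∀ m : ℕ, m ≤ 2 * n → Va ρ β h m ≤ K) →
      (((Finset.range n).filter fun t => ¬ Win ρ β h (2 * n) t N (1 / 32)).card : ℝ) ≤ c * n →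
        C * Real.log n ≤ K * Real.sqrt (N / n) := by
  obtain ⟨g, hg⟩ : ∃ g : ℝ, g = Real.log (Phi h) + Real.log (∫ t, Real.exp (β * t) ∂ρ) -
    lam ρ β h := ⟨_, rfl⟩
  have hg0 : 0 < g := by
    unfold VSD at hvs
    linarith
  obtain ⟨c₀, hc₀, hL⟩ := Csy42.loc42 (ρ := ρ) hd hρ β g hg0
  have hL := hL h (by linarith)
  obtain ⟨C₂, hC₂, hB⟩ := npb98 (ρ := ρ) hd hρ hnc hβ
  obtain ⟨c₁, hc₁, hM⟩ := mainL72 hd (npf98 hd hρ hnc hβ) (mainQ85 hd hρ hnc hβ) g hg0
  have hM := hM h (by linarith)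
  have hU := upP85 (ρ := ρ) hd hρ β
  obtain ⟨D, hD⟩ : ∃ D : ℝ, D = 8 * (C₂ + 1) / c₀ := ⟨_, rfl⟩
  have hD0 : 0 < D := by
    rw [hD]
    positivity
  refine ⟨min (c₀ / 8) c₁, lt_min (by positivity) hc₁, fun C0 => ?_⟩
  obtain ⟨C, hC⟩ : ∃ C : ℝ, C = max C0 1 := ⟨_, rfl⟩
  have hC1 : 1 ≤ C := by
    rw [hC]
    exact le_max_right _ _
  have hCC : C0 ≤ C := by
    rw [hC]
    exact le_max_left _ _
  obtain ⟨s, hs⟩ : ∃ s : ℝ, s = Real.sqrt (2 * D) := ⟨_, rfl⟩
  have hs0 : 0 < s := by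
    rw [hs]
    exact Real.sqrt_pos.2 (by positivity)
  have hs2 : s ^ 2 = 2 * D := by
    rw [hs]
    exact Real.sq_sqrt (by positivity)
  obtain ⟨Γ, hΓ⟩ : ∃ Γ : ℝ, Γ = C * s := ⟨_, rfl⟩
  have hΓ0 : 0 < Γ := by
    rw [hΓ]
    positivity
  have hl : Tendsto (fun n : ℕ => Real.log n) atTop atTop :=
    Real.tendsto_log_atTop.comp tendsto_natCast_atTop_atTop
  filter_upwards [gapF13 (ρ := ρ) hd hρ β h hvs hc₀ hΓ0 (show 0 < c₀ / 8 by positivity),
    hl.eventually_ge_atTop 1, hl.eventually_ge_atTop (1 / Γ),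
    tendsto_natCast_atTop_atTop.eventually_ge_atTop (8 / c₀)] with n hgap hl1 hl2 hn8 K N hN hV hW
  have hn1 : 1 ≤ n := by
    rcases Nat.eq_zero_or_pos n with h0 | h0
    · exfalso
      rw [h0] at hl1
      norm_num at hl1
    · exact h0
  have hn' : (0 : ℝ) < n := by exact_mod_cast hn1
  obtain ⟨l, hl'⟩ : ∃ l, l = Real.log n := ⟨_, rfl⟩
  have hY0 := hM n hn1 K N hN hV (hW.trans (mul_le_mul_of_nonneg_right (min_le_right _ _) hn'.le))
  rw [← hl'] at hgap hl1 hl2 hY0 ⊢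
  obtain ⟨G, hG⟩ : ∃ G, G = Γ * l := ⟨_, rfl⟩
  rw [← hG] at hgap
  have hl0 : 0 < l := by linarith
  have hG1 : 1 ≤ G := by
    rw [div_le_iff₀ hΓ0] at hl2
    rw [hG]
    linarith
  obtain ⟨Y, hY⟩ : ∃ Y : ℝ, Y = K * Real.sqrt (N / n) := ⟨_, rfl⟩
  rw [← hY] at hY0 ⊢
  have hNn : 0 < N / n := by positivity
  have hsN : 0 < Real.sqrt (N / n) := Real.sqrt_pos.2 hNn
  have hYpos : 0 < Y := lt_of_lt_of_le (by positivity) hY0
  have hK : 0 < K := by
    rw [hY] at hYpos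
    exact pos_of_mul_pos_left hYpos hsN.le
  suffices hkey : G ≤ s * Y by
    rw [hG, hΓ] at hkey
    have h1 : s * (C * l) ≤ s * Y := by linarith
    have h2 := le_of_mul_le_mul_left h1 hs0
    have h3 : C0 * l ≤ C * l := mul_le_mul_of_nonneg_right hCC hl0.le
    linarith
  -- the bad times
  obtain ⟨S, hS'⟩ : ∃ S : ℝ, S = D * K / n := ⟨_, rfl⟩
  have hS : 0 < S := by
    rw [hS']
    positivity
  obtain ⟨b, hb⟩ : ∃ b : ℕ → ℝ, b = fun t =>
    ∫ η, ∑ y ∈ boxF d (2 * n), (cE ρ (Pa d t)ᶜ (Qt β h (2 * n) t y) η) ^ 2 ∂(law d ρ) := ⟨_, rfl⟩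
  have hbn : ∀ t, 0 ≤ b t := fun t => by
    rw [hb]
    exact sum_sq_nonneg h (2 * n) t (Pa d t)ᶜ
  have hV2 := hV (2 * n) le_rfl
  have hsumb : ∑ t ∈ Finset.Ico 1 n, b t ≤ (C₂ + 1) * K := by
    have h1 : ∑ t ∈ Finset.Ico 1 n, b t ≤ ∑ t ∈ Finset.Icc 1 (2 * n), b t :=
      Finset.sum_le_sum_of_subset_of_nonneg (fun t ht => by
        rw [Finset.mem_Ico] at ht; rw [Finset.mem_Icc]; omega) fun t _ _ => hbn t
    have h2 := hB h (2 * n)
    have h3 : C₂ * Va ρ β h (2 * n) ≤ C₂ * K := mul_le_mul_of_nonneg_left hV2 hC₂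
    rw [hb] at h1 ⊢
    exact h1.trans (h2.trans (h3.trans (by linarith)))
  have hbadb : (((Finset.Ico 1 n).filter fun t => ¬ b t ≤ S).card : ℝ) ≤ c₀ / 8 * n := by
    have hMk := card_markov (s := Finset.Ico 1 n) (fun t _ => hbn t) hS hsumb
    have h1 : (C₂ + 1) * K = c₀ / 8 * n * S := by
      rw [hS', hD]
      field_simp
    rw [h1] at hMk
    exact le_of_mul_le_mul_right hMk hS
  have hbadW : (((Finset.range n).filter fun t => ¬ Win ρ β h (2 * n) t N (1 / 32)).card : ℝ) ≤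
      c₀ / 8 * n := hW.trans (mul_le_mul_of_nonneg_right (min_le_left _ _) hn'.le)
  have hone : (1 : ℝ) ≤ c₀ / 8 * n := by
    rw [div_le_iff₀ hc₀] at hn8
    linarith
  -- a good time
  have hgood : ∀ Q : ℕ → Prop,
      (((Finset.range n).filter fun t => (c₀ ≤ (law d ρ).real
        {η | ∃ y ∈ boxF d t, c₀ * Z β h η t ≤ PP β h η t y}) ∧ ¬ Q t).card : ℝ) ≤ c₀ / 8 * n →
      ∃ t, 1 ≤ t ∧ t < n ∧ Q t ∧ b t ≤ S ∧ Win ρ β h (2 * n) t N (1 / 32) := by
    intro Q hQ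
    by_contra hcon
    push Not at hcon
    have hsub : ((Finset.range n).filter fun t =>
        c₀ ≤ (law d ρ).real {η | ∃ y ∈ boxF d t, c₀ * Z β h η t ≤ PP β h η t y}) ⊆
        ((((Finset.range n).filter fun t => (c₀ ≤ (law d ρ).real
          {η | ∃ y ∈ boxF d t, c₀ * Z β h η t ≤ PP β h η t y}) ∧ ¬ Q t) ∪
        ((Finset.Ico 1 n).filter fun t => ¬ b t ≤ S)) ∪
        ((Finset.range n).filter fun t => ¬ Win ρ β h (2 * n) t N (1 / 32))) ∪ {0} := by
      intro t ht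
      rw [Finset.mem_filter] at ht
      have htn := Finset.mem_range.1 ht.1
      rw [Finset.mem_union, Finset.mem_union, Finset.mem_union, Finset.mem_filter,
        Finset.mem_filter, Finset.mem_filter, Finset.mem_singleton]
      rcases Nat.eq_zero_or_pos t with h0 | h0
      · exact Or.inr h0
      by_cases h1 : Q t
      · by_cases h2 : b t ≤ S
        · exact Or.inl (Or.inr ⟨ht.1, hcon t h0 htn h1 h2⟩)
        · exact Or.inl (Or.inl (Or.inr ⟨Finset.mem_Ico.2 ⟨h0, htn⟩, h2⟩))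
      · exact Or.inl (Or.inl (Or.inl ⟨ht.1, ht.2, h1⟩))
    have hcard := ((Finset.card_le_card hsub).trans (Finset.card_union_le _ _)).trans
      (Nat.add_le_add_right ((Finset.card_union_le _ _).trans
        (Nat.add_le_add_right (Finset.card_union_le _ _) _)) _)
    rw [Finset.card_singleton] at hcard
    have hcard' : (((Finset.range n).filter fun t =>
        c₀ ≤ (law d ρ).real {η | ∃ y ∈ boxF d t, c₀ * Z β h η t ≤ PP β h η t y}).card : ℝ) ≤
        (((Finset.range n).filter fun t => (c₀ ≤ (law d ρ).real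
          {η | ∃ y ∈ boxF d t, c₀ * Z β h η t ≤ PP β h η t y}) ∧ ¬ Q t).card : ℝ) +
        (((Finset.Ico 1 n).filter fun t => ¬ b t ≤ S).card : ℝ) +
        (((Finset.range n).filter fun t => ¬ Win ρ β h (2 * n) t N (1 / 32)).card : ℝ) + 1 := by
      exact_mod_cast hcard
    have h5 := hL n
    have h6 : 0 < c₀ * n := by positivity
    linarith
  -- `K N` is at least a multiple of `n`
  have hKN : ∀ t, t < n → b t ≤ S → Win ρ β h (2 * n) t N (1 / 32) →
      1 ≤ s ^ 2 * (K * (N / n)) := by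
    intro t ht h1 h2
    rw [hb] at h1
    have h3 := win_np72 (show t ≤ 2 * n by omega) h h2 (Pa d t)ᶜ h1
    have h4 : s ^ 2 * (K * (N / n)) = 2 * (N * S) := by
      rw [hs2, hS']
      field_simp
    rw [h4]
    linarith
  rcases lt_or_ge (G ^ 2) K with hcase | hcase
  · -- `K` is large
    obtain ⟨t, -, ht2, -, ht3, ht4⟩ := hgood (fun _ => True) (by simp; positivity)
    have h1 := hKN t ht2 ht3 ht4
    have h2 : G ^ 2 ≤ (s * Y) ^ 2 := by
      have h3 : (s * Y) ^ 2 = s ^ 2 * (K * (N / n)) * K := by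
        rw [hY, mul_pow, mul_pow, Real.sq_sqrt hNn.le]
        ring
      rw [h3]
      have h4 : 1 * K ≤ s ^ 2 * (K * (N / n)) * K := mul_le_mul_of_nonneg_right h1 hK.le
      linarith
    exact le_of_sq_le_sq h2 (by positivity)
  · -- `K` is small
    have hg2 := hgap (hV2.trans hcase)
    obtain ⟨t, ht1, ht2, hQ, ht3, ht4⟩ := hgood
      (fun t => 12 * G ≤ A ρ β h (2 * n) - A ρ β h t - A ρ β h (2 * n - t)) (by
        simpa only [not_le] using hg2)
    rw [hb] at ht3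
    have h1 := hU K N S h (2 * n) t (by omega) hV2 (hV t (by omega)) (hV (2 * n - t) (by omega))
      ht4 ht3
    have h2 : Real.sqrt K ≤ G := by
      rw [Real.sqrt_le_left (by linarith)]
      exact hcase
    have h3 : Real.sqrt (K * N * S) ≤ s * Y := by
      rw [Real.sqrt_le_left (by positivity), hY, mul_pow, mul_pow, Real.sq_sqrt hNn.le, hs2, hS']
      have h4 : 2 * D * (K ^ 2 * (N / n)) = 2 * (K * N * (D * K / n)) := by
        field_simp
      rw [h4]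
      have h5 : 0 < K * N * (D * K / n) := by positivity
      linarith
    linarith

end Pool.Agent.W_7d29a1_R13
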