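import Pool.Agent.W_7d29a1_R13.MainAA13
import Pool.Agent.W_7d29a1_R13.TrLL13

/-!
Fluctuations against wandering in dimension two with every constant, for an arbitrary i.i.d.
environment: the average of the variances, most of the times (helper13).
-/

set_option autoImplicit false

namespace Pool.Agent.W_7d29a1_R13

open MeasureTheory ProbabilityTheory Filter Topology Pool.Agent.W_MP_7d29a1_pr
  Pool.Agent.W_7d29a1_h46 Pool.Agent.W_7d29a1_h46u Pool.Agent.W_7d29a1_D2.B35
  Pool.Agent.W_7d29a1_Q29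

variable {Ω : Type*} [MeasurableSpace Ω] {μ : Measure Ω} [IsProbabilityMeasure μ] {d : ℕ}
  {ρ : Measure ℝ} [IsProbabilityMeasure ρ] {ω : ℕ × Site d → Ω → ℝ} {β : ℝ}

/-- The averaged window probability of a ball, in the letters of the frame. -/
lemma ballInt13 {ω : ℕ × Site 2 → Ω → ℝ} (hω : IID μ ρ ω) (h : Vec 2) (n t : ℕ) (w : ℝ)
    (v : Vec 2) : ∫ η, (1 - PolT β h η {s : Fin n → Step 2 | ‖emb (pos s t) - v‖ ≤ w})
      ∂(law 2 ρ) = ∫ x, PolT β h (fun p => ω p x)
        {s : Fin n → Step 2 | w < ‖emb (pos s t) - v‖} ∂μ := by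
  have hm : Measurable fun η : Env 2 => 1 - PolT β h η
      {s : Fin n → Step 2 | ‖emb (pos s t) - v‖ ≤ w} :=
    measurable_const.sub (measurable_PolT β h _)
  rw [← StrA_int hω hm]
  refine integral_congr_ae (Filter.Eventually.of_forall fun x => ?_)
  beta_reduce
  have hpos := ZT_univ_pos (n := n) (d := 2) (by norm_num) β h (fun p => ω p x)
  unfold PolT
  rw [sub_eq_iff_eq_add, ← add_div, eq_comm, div_eq_one_iff_eq hpos.ne']
  unfold ZT
  rw [← Finset.sum_add_distrib]
  refine Finset.sum_congr rfl fun s _ => ?_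
  by_cases hs : ‖emb (pos s t) - v‖ ≤ w
  · simp [hs]
  · simp [hs, not_le.1 hs]

/-- **W2+**: dimension two, every tilt of very strong disorder: if at all but `c n` of the times
`t < n` some ball of radius `w` carries the mean mass `31 / 32` of the polymer of length `2 n` then
`w` times the variance (of length `2 n`, and in the mean over the lengths `m < 2 n`) is larger than
every multiple of `√n log n`. -/
theorem ballA13 {ω : ℕ × Site 2 → Ω → ℝ} (hω : IID μ ρ ω) (hρ : EM ρ) (hnc : ∀ c : ℝ, ρ {c} ≠ 1)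
    (hβ : 0 < β) (h : Vec 2) (hh : lamN ρ β h < annN ρ β h) : ∃ c : ℝ, 0 < c ∧ ∀ C : ℝ,
    ∀ᶠ n : ℕ in atTop, ∀ K w : ℝ, 0 ≤ w →
      Var[fun x => Real.log (Zn β h (fun p => ω p x) (2 * n)); μ] ≤ K →
      ∑ m ∈ Finset.range (2 * n), Var[fun x => Real.log (Zn β h (fun p => ω p x) m); μ] ≤ K * n →
      (Set.ncard {t : ℕ | t < n ∧ ∀ v : Vec 2, 1 / 32 < ∫ x, PolT β h (fun p => ω p x)
        {s : Fin (2 * n) → Step 2 | w < ‖emb (pos s t) - v‖} ∂μ} : ℝ) ≤ c * n →
      C * (Real.sqrt n * Real.log n) ≤ K * (w + 1) := by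
  classical
  obtain ⟨c, hc, H⟩ := mainAA13 (d := 2) (by norm_num) hρ hnc hβ h ((vsd29 h).1 hh)
  refine ⟨c, hc, fun C => ?_⟩
  have hl : Tendsto (fun n : ℕ => Real.log n) atTop atTop :=
    Real.tendsto_log_atTop.comp tendsto_natCast_atTop_atTop
  filter_upwards [H (2 * C), hl.eventually_ge_atTop 1] with n hn hl1 K w hw hV2 hVs hW
  have hn1 : 1 ≤ n := by
    rcases Nat.eq_zero_or_pos n with h0 | h0
    · exfalso
      rw [h0] at hl1
      norm_num at hl1
    · exact h0
  have hn' : (0 : ℝ) < n := by exact_mod_cast hn1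
  have hvar := fun m : ℕ => var29 (ω := ω) (μ := μ) (β := β) (d := 2) (by norm_num) hω hρ h m
  rw [hvar] at hV2
  simp only [hvar] at hVs
  have h3 := hn K ((2 * w + 1) ^ 2) (by positivity) hV2 hVs (by
    refine le_trans ?_ hW
    rw [← Set.ncard_coe_finset]
    have hfin : {t : ℕ | t < n ∧ ∀ v : Vec 2, 1 / 32 < ∫ x, PolT β h (fun p => ω p x)
        {s : Fin (2 * n) → Step 2 | w < ‖emb (pos s t) - v‖} ∂μ}.Finite :=
      (Set.finite_lt_nat n).subset fun t ht => ht.1
    refine Nat.cast_le.2 (Set.ncard_le_ncard ?_ hfin)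
    intro t ht
    rw [Finset.mem_coe, Finset.mem_filter] at ht
    have htn := Finset.mem_range.1 ht.1
    refine ⟨htn, fun v => ?_⟩
    rw [← ballInt13 (ρ := ρ) hω h (2 * n) t w v]
    by_contra hcon
    exact ht.2 (win_of_ball (by omega) h v hw (not_lt.1 hcon)))
  have hs : 0 < Real.sqrt n := Real.sqrt_pos.2 hn'
  rw [Real.sqrt_div (by positivity), Real.sqrt_sq (by positivity), mul_div_assoc',
    le_div_iff₀ hs] at h3
  have hK0 : 0 ≤ K := (va_nonneg h (2 * n)).trans hV2
  have h5 : K * (2 * w + 1) ≤ 2 * (K * (w + 1)) := by nlinarith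
  have h6 : 2 * C * Real.log n * Real.sqrt n = 2 * (C * (Real.sqrt n * Real.log n)) := by ring
  linarith

end Pool.Agent.W_7d29a1_R13
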