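import Pool.Agent.W_7d29a1_R13.Win13
import Pool.Agent.W_7d29a1_P89.Main
import Pool.Agent.W_7d29a1_P79.R79
import Pool.Agent.W_7d29a1_h46u.LamU

/-!
Uniformity over compact sets of tilts of very strong disorder: lucky segments, the rate of
convergence; a time with a good slope (helper13).
-/

set_option autoImplicit false

namespace Pool.Agent.W_7d29a1_R13

open MeasureTheory ProbabilityTheory Filter Topology Pool.Agent.W_MP_7d29a1_pr
  Pool.Agent.W_7d29a1_h46 Pool.Agent.W_7d29a1_h46u Pool.Agent.W_7d29a1_D2.B35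
  Pool.Agent.W_7d29a1_Q29 Pool.Agent.W_7d29a1_P89

variable {d : ℕ} {ρ : Measure ℝ} [IsProbabilityMeasure ρ]

/-- The parameters at a tilt. -/
noncomputable def pr13 (ρ : Measure ℝ) (β : ℝ) (h : Vec d) : Prm d := ⟨lam ρ β h, β, h, 1⟩

omit [IsProbabilityMeasure ρ] in
lemma W_tilt13 (β : ℝ) (h h0 : Vec d) (η : Env d) (k : ℕ) (y : Site d) :
    W (pr13 ρ β h) η k y = Real.exp (-(k * (lam ρ β h - lam ρ β h0)) + inner ℝ (h - h0) (emb y)) *
      W (pr13 ρ β h0) η k y := by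
  have h1 := PP_tilt β h0 (h - h0) η k y
  have h2 : h0 + (h - h0) = h := by abel
  rw [h2] at h1
  unfold W pr13
  simp only
  rw [h1, ← mul_assoc, ← mul_assoc, ← Real.exp_add, ← Real.exp_add]
  congr 2
  ring

lemma cont_lam13 (hd : 0 < d) (hρ : EM ρ) (β : ℝ) : Continuous fun h : Vec d => lam ρ β h :=
  (lam_convex hd hρ β).locallyLipschitz.continuous

/-- Lucky segments near a tilt of very strong disorder. -/
lemma near13 (hd : 0 < d) (hρ : EM ρ) (β : ℝ) (h0 : Vec d) (hvs : VSD ρ β h0) {θ : ℝ}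
    (hθ0 : 0 < θ) (hθ1 : θ ≤ 1) : ∃ (k : ℕ) (y : Site d) (u : ℝ), 1 ≤ k ∧ 1 / 2 ≤ u ∧
      ∀ᶠ h in 𝓝 h0, Real.exp (-(θ * u)) ≤
        (law d ρ).real {η : Env d | Lk (pr13 ρ β h) k y u η} := by
  have hvs' : lam ρ (pr13 ρ β h0).be (pr13 ρ β h0).h <
      Real.log (∫ x, Real.exp ((pr13 ρ β h0).be * x) ∂ρ) +
      Real.log (∑ e : Step d, Real.exp (inner ℝ (pr13 ρ β h0).h (emb (vec e)))) := by
    have h1 : lam ρ β h0 < Real.log (Phi h0) + Real.log (∫ t, Real.exp (β * t) ∂ρ) := hvs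
    have h2 : Real.log (Phi h0) =
      Real.log (∑ e : Step d, Real.exp (inner ℝ h0 (emb (vec e)))) := rfl
    unfold pr13
    simp only
    linarith
  obtain ⟨k, y, u, hk1, hu1, hp⟩ := Pool.Agent.W_7d29a1_P79.pair79 hd hρ (pr13 ρ β h0)
    (fun t h0 h1 => mainP hd hρ _ rfl hvs' h0 h1) (t := θ / 2) (by linarith) (by linarith)
  refine ⟨k, y, u - 1 / 2, hk1, by linarith, ?_⟩
  have hcont : Continuous fun h : Vec d =>
      -((k : ℝ) * (lam ρ β h - lam ρ β h0)) + inner ℝ (h - h0) (emb y) := by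
    refine Continuous.add ?_ ?_
    · exact ((continuous_const.mul ((cont_lam13 hd hρ β).sub continuous_const))).neg
    · exact (continuous_id.sub continuous_const).inner continuous_const
  have hz : -((k : ℝ) * (lam ρ β h0 - lam ρ β h0)) + inner ℝ (h0 - h0) (emb y) = 0 := by
    simp
  have hev : ∀ᶠ h in 𝓝 h0, -(1 / 2 : ℝ) <
      -((k : ℝ) * (lam ρ β h - lam ρ β h0)) + inner ℝ (h - h0) (emb y) := by
    have h1 := hcont.tendsto h0
    rw [hz] at h1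
    exact h1.eventually_const_lt (by norm_num)
  filter_upwards [hev] with h hh
  have h1 : Real.exp (-(θ * (u - 1 / 2))) ≤ Real.exp (-(θ / 2 * u)) := by
    rw [Real.exp_le_exp]
    nlinarith
  refine (h1.trans hp).trans (measureReal_mono ?_)
  intro η hη
  have h2 : Real.exp u ≤ W (pr13 ρ β h0) η k y := hη
  show Real.exp (u - 1 / 2) ≤ W (pr13 ρ β h) η k y
  rw [W_tilt13 β h h0]
  calc Real.exp (u - 1 / 2) = Real.exp (-(1 / 2)) * Real.exp u := by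
        rw [← Real.exp_add]
        congr 1
        ring
    _ ≤ _ := mul_le_mul (Real.exp_le_exp.2 hh.le) h2 (Real.exp_pos _).le (Real.exp_pos _).le

/-- **Uniform lucky segments** over a compact set of tilts of very strong disorder. -/
theorem luckU13 (hd : 0 < d) (hρ : EM ρ) (β : ℝ) {S : Set (Vec d)} (hS : IsCompact S)
    (hvs : ∀ h ∈ S, VSD ρ β h) {θ : ℝ} (hθ0 : 0 < θ) (hθ1 : θ ≤ 1) :
    ∃ (k1 : ℕ) (u1 : ℝ), ∀ h ∈ S, ∃ (k : ℕ) (y : Site d) (u : ℝ), 1 ≤ k ∧ k ≤ k1 ∧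
      1 / 2 ≤ u ∧ u ≤ u1 ∧ Real.exp (-(θ * u)) ≤
        (law d ρ).real {η : Env d | Lk (pr13 ρ β h) k y u η} := by
  refine hS.induction_on (p := fun T : Set (Vec d) => ∃ (k1 : ℕ) (u1 : ℝ), ∀ h ∈ T,
    ∃ (k : ℕ) (y : Site d) (u : ℝ), 1 ≤ k ∧ k ≤ k1 ∧
      1 / 2 ≤ u ∧ u ≤ u1 ∧ Real.exp (-(θ * u)) ≤
        (law d ρ).real {η : Env d | Lk (pr13 ρ β h) k y u η}) ?_ ?_ ?_ ?_
  · exact ⟨0, 0, fun h hh => absurd hh (Set.notMem_empty h)⟩
  · rintro s t hst ⟨k1, u1, H⟩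
    exact ⟨k1, u1, fun h hh => H h (hst hh)⟩
  · rintro s t ⟨k1, u1, H1⟩ ⟨k2, u2, H2⟩
    refine ⟨max k1 k2, max u1 u2, fun h hh => ?_⟩
    rcases hh with hh | hh
    · obtain ⟨k, y, u, a1, a2, a3, a4, a5⟩ := H1 h hh
      exact ⟨k, y, u, a1, a2.trans (le_max_left _ _), a3, a4.trans (le_max_left _ _), a5⟩
    · obtain ⟨k, y, u, a1, a2, a3, a4, a5⟩ := H2 h hh
      exact ⟨k, y, u, a1, a2.trans (le_max_right _ _), a3, a4.trans (le_max_right _ _), a5⟩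
  · intro h0 hh0
    obtain ⟨k, y, u, hk, hu, H⟩ := near13 hd hρ β h0 (hvs h0 hh0) hθ0 hθ1
    exact ⟨_, mem_nhdsWithin_of_mem_nhds H, k, u, fun h hh =>
      ⟨k, y, u, hk, le_rfl, hu, le_rfl, hh⟩⟩

/-- **Uniform rate of convergence** over a compact set of tilts. -/
theorem rateC13 (hd : 0 < d) (hρ : EM ρ) (β : ℝ) {S : Set (Vec d)} (hS : IsCompact S) :
    ∃ C1 : ℝ, 0 ≤ C1 ∧ ∀ h ∈ S, ∀ n : ℕ, 1 ≤ n →
      n * lam ρ β h - A ρ β h n ≤ C1 * (n : ℝ) ^ (3 / 4 : ℝ) := by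
  refine hS.induction_on (p := fun T : Set (Vec d) => ∃ C1 : ℝ, 0 ≤ C1 ∧ ∀ h ∈ T, ∀ n : ℕ,
    1 ≤ n → n * lam ρ β h - A ρ β h n ≤ C1 * (n : ℝ) ^ (3 / 4 : ℝ)) ?_ ?_ ?_ ?_
  · exact ⟨0, le_rfl, fun h hh => absurd hh (Set.notMem_empty h)⟩
  · rintro s t hst ⟨C1, hC, H⟩
    exact ⟨C1, hC, fun h hh => H h (hst hh)⟩
  · rintro s t ⟨C1, hC1, H1⟩ ⟨C2, hC2, H2⟩
    refine ⟨max C1 C2, le_max_of_le_left hC1, fun h hh n hn => ?_⟩
    have hp : 0 ≤ (n : ℝ) ^ (3 / 4 : ℝ) := by positivity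
    rcases hh with hh | hh
    · exact (H1 h hh n hn).trans (mul_le_mul_of_nonneg_right (le_max_left _ _) hp)
    · exact (H2 h hh n hn).trans (mul_le_mul_of_nonneg_right (le_max_right _ _) hp)
  · intro h0 _
    obtain ⟨δ, hδ, C1, hC1, H1⟩ := rateU hd hρ (by norm_num : (0 : ℝ) ≤ 1 / 2)
      (Fl_half hd hρ β h0) (by norm_num : (0 : ℝ) < 1 / 4) (by norm_num)
    have hev : ∀ᶠ h in 𝓝 h0, ‖h - h0‖ < δ := by
      filter_upwards [Metric.ball_mem_nhds h0 hδ] with h hh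
      rwa [Metric.mem_ball, dist_eq_norm] at hh
    refine ⟨_, mem_nhdsWithin_of_mem_nhds hev, C1, hC1, fun h hh n hn => ?_⟩
    have e1 : (1 / 2 + 1 / 4 : ℝ) = 3 / 4 := by norm_num
    have h1 := H1 h hh n hn
    rwa [e1] at h1

/-- A length with a good slope. -/
theorem slope13 (hd : 0 < d) (hρ : EM ρ) (β : ℝ) (h : Vec d) {C1 : ℝ}
    (hC1 : 0 ≤ C1) (hD : ∀ n : ℕ, 1 ≤ n → n * lam ρ β h - A ρ β h n ≤ C1 * (n : ℝ) ^ (3 / 4 : ℝ))
    {n K : ℕ} (hK : 1 ≤ K) (hn : (C1 * (n : ℝ) ^ (3 / 4 : ℝ) + 1) * (2 * K) ≤ n) :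
    ∃ m : ℕ, n / 2 ≤ m ∧ m + K ≤ n ∧ A ρ β h (m + K) - A ρ β h m ≤ K * lam ρ β h + 1 := by
  by_contra hcon
  push Not at hcon
  have hKR : (1 : ℝ) ≤ K := by exact_mod_cast hK
  have hp0 : 0 ≤ C1 * (n : ℝ) ^ (3 / 4 : ℝ) := by positivity
  have hn2 : 2 ≤ n := by
    have h1 : (2 : ℝ) ≤ n := by nlinarith
    exact_mod_cast h1
  obtain ⟨a, ha⟩ : ∃ a, a = n / 2 := ⟨_, rfl⟩
  obtain ⟨J, hJ⟩ : ∃ J, J = (n - a) / K := ⟨_, rfl⟩
  have ha1 : 1 ≤ a := by omega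
  have han : a ≤ n := by omega
  have hJK : J * K ≤ n - a := by
    rw [hJ]
    exact Nat.div_mul_le_self _ _
  have hstep : ∀ j : ℕ, j ≤ J →
      A ρ β h a + j * (K * lam ρ β h + 1) ≤ A ρ β h (a + j * K) := by
    intro j
    induction j with
    | zero => intro _; simp
    | succ j ih =>
      intro hj
      have h1 := ih (by omega)
      have h3 : (j + 1) * K ≤ J * K := Nat.mul_le_mul_right _ hj
      have h4 : (j + 1) * K = j * K + K := by ring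
      have h2 := hcon (a + j * K) (by omega) (by omega)
      have e1 : a + (j + 1) * K = a + j * K + K := by omega
      rw [e1]
      push_cast
      linarith
  have h1 := hstep J le_rfl
  have h2 := A_le_lam hd hρ β h (a + J * K)
  have h3 := hD a ha1
  have h4 : ((a + J * K : ℕ) : ℝ) = a + J * K := by push_cast; ring
  rw [h4] at h2
  have h5 : (J : ℝ) ≤ C1 * (a : ℝ) ^ (3 / 4 : ℝ) := by
    have : (J : ℝ) * (K * lam ρ β h + 1) = J * K * lam ρ β h + J := by ring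
    rw [this] at h1
    linarith
  have h6 : (a : ℝ) ^ (3 / 4 : ℝ) ≤ (n : ℝ) ^ (3 / 4 : ℝ) :=
    Real.rpow_le_rpow (by positivity) (by exact_mod_cast han) (by norm_num)
  have h7 : (J : ℝ) ≤ C1 * (n : ℝ) ^ (3 / 4 : ℝ) :=
    h5.trans (mul_le_mul_of_nonneg_left h6 hC1)
  have h8 : n < 2 * ((J + 1) * K) := by
    have h9 : n - a < (J + 1) * K := by
      rw [hJ]
      have := Nat.lt_div_mul_add (a := n - a) (show 0 < K by omega)
      rw [Nat.add_mul, one_mul]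
      exact this
    omega
  have h9 : (n : ℝ) < 2 * ((J + 1) * K) := by exact_mod_cast h8
  have h10 : ((J : ℝ) + 1) * (2 * K) ≤ (C1 * (n : ℝ) ^ (3 / 4 : ℝ) + 1) * (2 * K) :=
    mul_le_mul_of_nonneg_right (by linarith) (by linarith)
  linarith

end Pool.Agent.W_7d29a1_R13
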