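import Pool.Agent.W_7d29a1_R13.Bad13
import Pool.Agent.W_7d29a1_R34.LowG93
import Pool.Agent.W_7d29a1_R34.UniH93
import Pool.Agent.W_7d29a1_R34.Abel81
import Pool.Agent.W_7d29a1_R34.EgoG81
import Pool.Agent.W_7d29a1_Q29.AvgR56
import Pool.Agent.W_7d29a1_Q29.Den65

/-!
Very strong disorder in two transversal dimensions (helper13, after helper93): over every set of
tilts of positive measure the supremum of the variances up to `n` is larger than every multiple of
`log n`.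
-/

set_option autoImplicit false

namespace Pool.Agent.W_7d29a1_R13

open MeasureTheory ProbabilityTheory Filter Topology Pool.Agent.W_MP_7d29a1_pr
  Pool.Agent.W_7d29a1_h46 Pool.Agent.W_7d29a1_h46u Pool.Agent.W_7d29a1_D2.B35
  Pool.Agent.W_7d29a1_Q29 Pool.Agent.W_7d29a1_R34
open scoped ENNReal

/-- The uniform lower bound over a set of positive measure of tilts of very strong disorder, with
every constant. -/
def UniGG (ρ : Measure ℝ) (β : ℝ) : Prop := ∀ g : ℝ, 0 < g → ∀ B : Set (Vec 2),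
  Bornology.IsBounded B → MeasurableSet B → volume B ≠ 0 →
  (∀ h ∈ B, lam ρ β h + g ≤ Real.log (Phi h) + Real.log (∫ t, Real.exp (β * t) ∂ρ)) →
  ∀ C : ℝ, ∃ n₀ : ℕ, ∀ n : ℕ, n₀ ≤ n → ∀ K : ℝ,
    (∀ h ∈ B, ∀ m : ℕ, m ≤ n → Va ρ β h m ≤ K) → C * Real.log n ≤ K

/-- The closure of a set of tilts with a gap is a set of tilts of very strong disorder. -/
lemma clos13 {d : ℕ} {ρ : Measure ℝ} [IsProbabilityMeasure ρ] (hd : 0 < d) (hρ : EM ρ) (β : ℝ)
    {g : ℝ} (hg : 0 < g) {B : Set (Vec d)}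
    (hgap : ∀ h ∈ B, lam ρ β h + g ≤ Real.log (Phi h) + Real.log (∫ t, Real.exp (β * t) ∂ρ)) :
    ∀ h ∈ closure B, VSD ρ β h := by
  intro h hh
  have h1 : closure B ⊆ {h : Vec d | g ≤ Real.log (Phi h) +
      Real.log (∫ t, Real.exp (β * t) ∂ρ) - lam ρ β h} := by
    refine closure_minimal (fun h hh => ?_) (isClosed_le continuous_const (contVSD81 hd hρ β))
    have := hgap h hh
    show g ≤ _
    linarith
  have h2 : g ≤ Real.log (Phi h) + Real.log (∫ t, Real.exp (β * t) ∂ρ) - lam ρ β h := h1 hh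
  unfold VSD
  linarith

/-- The weight of the times after the half. -/
lemma tail13w {n m : ℕ} (hn : 4 ≤ n) (hm : n / 2 ≤ m) :
    ∑ t ∈ (Finset.Icc (Nat.sqrt n) n).filter (fun t => ¬ t < m), (1 / (t : ℝ)) ≤ 3 := by
  have hm2 : 2 ≤ m := by omega
  have hmR : (2 : ℝ) ≤ m := by exact_mod_cast hm2
  have h1 : (Finset.Icc (Nat.sqrt n) n).filter (fun t => ¬ t < m) ⊆ Finset.Icc m (2 * m + 1) := by
    intro t ht
    rw [Finset.mem_filter, Finset.mem_Icc] at ht
    rw [Finset.mem_Icc]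
    omega
  refine (Finset.sum_le_sum_of_subset_of_nonneg h1 fun t _ _ => by positivity).trans ?_
  calc ∑ t ∈ Finset.Icc m (2 * m + 1), (1 / (t : ℝ))
      ≤ ∑ _t ∈ Finset.Icc m (2 * m + 1), (1 / (m : ℝ)) := by
        refine Finset.sum_le_sum fun t ht => ?_
        rw [Finset.mem_Icc] at ht
        exact one_div_le_one_div_of_le (by linarith) (by exact_mod_cast ht.1)
    _ = (m + 2) * (1 / (m : ℝ)) := by
        rw [Finset.sum_const, Nat.card_Icc, nsmul_eq_mul]
        congr 1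
        have : 2 * m + 1 + 1 - m = m + 2 := by omega
        rw [this]
        push_cast
        ring
    _ ≤ 3 := by
        rw [mul_one_div, div_le_iff₀ (by linarith)]
        linarith

theorem uniGG13 {ρ : Measure ℝ} [IsProbabilityMeasure ρ] (hρ : EM ρ) {β : ℝ} (hL : LeakR ρ β)
    (hB : NPB 2 ρ β) (hLoc : LocE 2 ρ β) : UniGG ρ β := by
  classical
  intro g hg B hBb hBm hB0 hgap C0
  obtain ⟨C, hC⟩ : ∃ C : ℝ, C = max C0 1 := ⟨_, rfl⟩
  have hC1 : 1 ≤ C := by
    rw [hC]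
    exact le_max_right _ _
  have hCC : C0 ≤ C := by
    rw [hC]
    exact le_max_left _ _
  obtain ⟨c₀, hc₀, hloc⟩ := hLoc g hg
  obtain ⟨ca, hca, na, habel⟩ := abel81 hc₀
  obtain ⟨R, hR⟩ := hBb.subset_closedBall (0 : Vec 2)
  obtain ⟨r₀, hr₀, T, hTB, hT0, hdens⟩ := D65.density_leaf (volume : Measure (Vec 2)) B hBm hB0
    (ε := 1 / 9) (by norm_num)
  obtain ⟨Cb, hCb, hbadA⟩ := badA56 (d := 2) (by norm_num) hρ β R
  obtain ⟨CB, hCB, hNPB⟩ := hB
  obtain ⟨δ, hδ⟩ : ∃ δ, δ = min r₀ 1 := ⟨_, rfl⟩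
  have hδ0 : 0 < δ := by
    rw [hδ]
    exact lt_min hr₀ one_pos
  have hδ1 : δ ≤ 1 := by
    rw [hδ]
    exact min_le_right _ _
  have hδr : δ ≤ r₀ := by
    rw [hδ]
    exact min_le_left _ _
  -- the curvature constant
  have hpos : 0 < ENNReal.ofReal (ca / 8) * volume T :=
    ENNReal.mul_pos (ENNReal.ofReal_pos.2 (by positivity)).ne' hT0
  obtain ⟨q, hq0, hq1⟩ := ENNReal.lt_iff_exists_nnreal_btwn.1 hpos
  have hq0' : (0 : ℝ) < q := by exact_mod_cast hq0
  obtain ⟨M, hM⟩ : ∃ M : ℝ, M = max 1 (Cb * 8 / q) := ⟨_, rfl⟩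
  have hM1 : 1 ≤ M := by
    rw [hM]
    exact le_max_left _ _
  have hM0 : 0 < M := by linarith
  have hMq : Cb * 8 / M ≤ q := by
    rw [div_le_iff₀ hM0]
    have h1 : Cb * 8 / q ≤ M := by
      rw [hM]
      exact le_max_right _ _
    rw [div_le_iff₀ hq0'] at h1
    linarith
  have hηT : ENNReal.ofReal (Cb * 8 / M) < ENNReal.ofReal (ca / 8) * volume T := by
    refine lt_of_le_of_lt ?_ hq1
    rw [← ENNReal.ofReal_coe_nnreal]
    exact ENNReal.ofReal_le_ofReal hMq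
  -- the size of the gap
  obtain ⟨Γ, hΓ⟩ : ∃ Γ : ℝ, Γ = 2 * 10 ^ 9 * M ^ 2 * (CB + 1) * C ^ 2 / ca := ⟨_, rfl⟩
  have hΓ0 : 0 < Γ := by
    rw [hΓ]
    positivity
  have hΓca : Γ * ca = 2 * 10 ^ 9 * M ^ 2 * (CB + 1) * C ^ 2 := by
    rw [hΓ]
    field_simp
  obtain ⟨nb, hbad13⟩ := bad13 (d := 2) (by norm_num) hρ β
    (Metric.isCompact_of_isClosed_isBounded isClosed_closure hBb.closure)
    (clos13 (by norm_num) hρ β hg hgap) hc₀ hΓ0
  obtain ⟨n2, hn2⟩ := eventually_atTop.1 (ev93 (κ := 64 * Γ) (by positivity) hc₀ hca hδ0 hM0)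
  have hl : Tendsto (fun n : ℕ => Real.log n) atTop atTop :=
    Real.tendsto_log_atTop.comp tendsto_natCast_atTop_atTop
  obtain ⟨n4, hn4⟩ := eventually_atTop.1 (hl.eventually_ge_atTop (16 / ca))
  obtain ⟨n5, hn5⟩ := eventually_atTop.1
    (hl.eventually_ge_atTop (C * (2 * 10 ^ 6 * M ^ 2) / Γ ^ 2))
  -- the case `K ≥ 1`
  have main : ∀ n : ℕ, max (max (max na nb) n2) (max n4 n5) ≤ n → ∀ K : ℝ, 1 ≤ K →
      (∀ h ∈ B, ∀ m : ℕ, m ≤ n → Va ρ β h m ≤ K) → C * Real.log n ≤ K := by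
    intro n hn K hK1 hK
    have hnA : max (max na nb) n2 ≤ n := (le_max_left _ _).trans hn
    have hnB : max n4 n5 ≤ n := (le_max_right _ _).trans hn
    obtain ⟨e1, e2, e3, e4, -, -, -⟩ := hn2 n ((le_max_right _ _).trans hnA)
    have hna : na ≤ n := (le_max_left _ _).trans ((le_max_left _ _).trans hnA)
    have hnb : nb ≤ n := (le_max_right _ _).trans ((le_max_left _ _).trans hnA)
    have e6 := hn4 n ((le_max_left _ _).trans hnB)
    have e7 := hn5 n ((le_max_right _ _).trans hnB)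
    have hΓ64 : 64 * Γ / 64 = Γ := by ring
    rw [hΓ64] at e3 e4
    rw [div_le_iff₀ hca] at e6
    rw [div_le_iff₀ (by positivity)] at e7
    obtain ⟨G, hG⟩ : ∃ G, G = Γ * Real.log n := ⟨_, rfl⟩
    rw [← hG] at e3 e4
    have hG0 : 0 < G := by linarith
    rcases lt_or_ge (G ^ 2 / (2 * 10 ^ 6 * M ^ 2)) K with hKG | hKG
    · have h1 : C * Real.log n ≤ G ^ 2 / (2 * 10 ^ 6 * M ^ 2) := by
        rw [le_div_iff₀ (by positivity), hG]
        have h2 := mul_le_mul_of_nonneg_right e7 (show 0 ≤ Real.log n by linarith)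
        calc C * Real.log n * (2 * 10 ^ 6 * M ^ 2)
            = C * (2 * 10 ^ 6 * M ^ 2) * Real.log n := by ring
          _ ≤ Real.log n * Γ ^ 2 * Real.log n := h2
          _ = (Γ * Real.log n) ^ 2 := by ring
      linarith
    have hsq1 : 1 ≤ Nat.sqrt n := Nat.le_sqrt.2 (by omega)
    have hW0 : 0 < Real.sqrt G := Real.sqrt_pos.2 hG0
    -- the bad sets
    obtain ⟨sc, hsc⟩ : ∃ sc : ℕ → ℕ → ℝ, sc = fun t j => 2 * rw' M (Real.sqrt G) t j := ⟨_, rfl⟩
    obtain ⟨bad, hbad⟩ : ∃ bad : ℕ → Set (Vec 2), bad = fun t => if 1 ≤ t then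
      BadS R (fun h : Vec 2 => A ρ β h t) (sc t) (fun j => M * (2 ^ j / 4) * (t * sc t j ^ 2))
      else ∅ := ⟨_, rfl⟩
    have hsum4 : HasSum (fun j : ℕ => ((2 : ℝ) ^ j / 4)⁻¹) 8 := by
      have h1 := hasSum_geometric_two.mul_left 4
      have h2 : (fun j : ℕ => ((2 : ℝ) ^ j / 4)⁻¹) = fun j : ℕ => 4 * (1 / 2 : ℝ) ^ j := by
        funext j
        rw [one_div, inv_pow, inv_div, div_eq_mul_inv]
      rw [h2]
      have h3 : (4 : ℝ) * 2 = 8 := by norm_num
      rwa [h3] at h1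
    have hbadP : ∀ t, MeasurableSet (bad t) ∧ volume (bad t) ≤ ENNReal.ofReal (Cb * 8 / M) := by
      intro t
      rw [hbad]
      by_cases ht : 1 ≤ t
      · simp only [ht, if_true]
        have htR : (0 : ℝ) < t := by exact_mod_cast ht
        have h1 := hbadA t ht (sc t) (fun j => 2 ^ j / 4) M (fun j => by
          rw [hsc]
          unfold rw'
          have := Real.sqrt_pos.2 htR
          positivity) (fun j => by positivity) hM0 hsum4.summable
        rw [hsum4.tsum_eq] at h1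
        exact h1
      · simp [ht]
    obtain ⟨I, hI⟩ : ∃ I, I = Finset.Icc (Nat.sqrt n) n := ⟨_, rfl⟩
    obtain ⟨h, hhT, hwt⟩ := wtsG81 (volume : Measure (Vec 2)) T bad (fun t => (hbadP t).1)
      (ENNReal.ofReal (Cb * 8 / M)) (fun t => (hbadP t).2) (by positivity : (0 : ℝ) < ca / 8) hηT
      I (fun t => 1 / (t : ℝ)) (fun t _ => by positivity)
    have hhB : h ∈ B := hTB hhT
    have hharm : ∑ t ∈ I, (1 / (t : ℝ)) ≤ 2 * Real.log n := by
      rw [hI]
      exact harm93 (by omega) e2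
    have hw1 : ∑ t ∈ I.filter (fun t => h ∈ bad t), (1 / (t : ℝ)) ≤ ca / 4 * Real.log n := by
      refine hwt.trans ?_
      have := mul_le_mul_of_nonneg_left hharm (by positivity : (0 : ℝ) ≤ ca / 8)
      linarith
    -- the length, and the times with a small gap
    have hKsq : K ≤ (Γ * Real.log n) ^ 2 := by
      refine hKG.trans ?_
      rw [← hG, div_le_iff₀ (by positivity)]
      have h3 : 1 ≤ M ^ 2 := one_le_pow₀ hM1
      have h4 : G ^ 2 * 1 ≤ G ^ 2 * (2 * 10 ^ 6 * M ^ 2) :=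
        mul_le_mul_of_nonneg_left (by linarith) (sq_nonneg _)
      linarith
    obtain ⟨m, hm1, hmn, hw3⟩ := hbad13 n hnb h (subset_closure hhB) K hKsq (hK h hhB)
    rw [← hI, ← hG] at hw3
    -- localised times
    obtain ⟨P, hP⟩ : ∃ P : ℕ → Prop, P = fun t => c₀ ≤ (law 2 ρ).real
      {η | ∃ y ∈ boxF 2 t, c₀ * Z β h η t ≤ PP β h η t y} := ⟨_, rfl⟩
    obtain ⟨Q, hQ⟩ : ∃ Q : ℕ → Prop, Q = fun t => t < m ∧ c₀ ≤ (law 2 ρ).real
      {η | ∃ y ∈ boxF 2 t, c₀ * Z β h η t ≤ PP β h η t y} ∧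
      A ρ β h m - A ρ β h t - A ρ β h (m - t) < 4 * G := ⟨_, rfl⟩
    have hw2 : ca * Real.log n ≤ ∑ t ∈ I.filter P, (1 / (t : ℝ)) := by
      rw [hI]
      refine habel n hna P fun m => ?_
      rw [hP]
      exact hloc h (hgap h hhB) m
    have hw3' : ∑ t ∈ I.filter Q, (1 / (t : ℝ)) ≤ 1 := by
      refine le_trans (le_of_eq ?_) hw3
      refine Finset.sum_congr ?_ fun _ _ => rfl
      ext t
      simp only [Finset.mem_filter, hQ]
    have hw4 : ∑ t ∈ I.filter (fun t => ¬ t < m), (1 / (t : ℝ)) ≤ 3 := by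
      rw [hI]
      exact tail13w e1 hm1
    obtain ⟨J, hJ⟩ : ∃ J, J = I.filter (fun t => P t ∧ ¬ (h ∈ bad t) ∧ ¬ Q t ∧ t < m) := ⟨_, rfl⟩
    have hwJ : ca / 2 * Real.log n ≤ ∑ t ∈ J, (1 / (t : ℝ)) := by
      have h1 := split93 (n := m) P (fun t => h ∈ bad t) Q I
      rw [← hJ] at h1
      linarith
    -- one time
    have hone : ∀ t ∈ J, G / (10 ^ 9 * M ^ 2 * K) * (1 / (t : ℝ)) ≤ St ρ β h m t := by
      intro t ht
      rw [hJ, Finset.mem_filter, hI, Finset.mem_Icc] at ht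
      obtain ⟨⟨ht1, ht2⟩, hPt, hbt, hst, htm⟩ := ht
      have ht0 : 1 ≤ t := hsq1.trans ht1
      have htR : (0 : ℝ) < t := by exact_mod_cast ht0
      have hW : Real.sqrt G ≤ δ ^ 4 * Real.sqrt t := by
        have h1 : G ≤ δ ^ 8 * t := e4.trans (mul_le_mul_of_nonneg_left
          (by exact_mod_cast ht1) (by positivity))
        have h2 : δ ^ 8 * (t : ℝ) = (δ ^ 4 * Real.sqrt t) ^ 2 := by
          rw [mul_pow, Real.sq_sqrt htR.le]
          ring
        rw [h2] at h1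
        exact (Real.sqrt_le_sqrt h1).trans (le_of_eq (Real.sqrt_sq (by positivity)))
      have hdens' : ∀ r : ℝ, 0 < r → r ≤ δ → ∀ (j : Fin 2) (s : ℝ), (s = 1 ∨ s = -1) →
          ∃ g : Vec 2, ‖g - h - (s * r) • ej j‖ ≤ r / 9 ∧ Va ρ β g t ≤ K := by
        intro r hr hrδ j s hs
        have hnorm : ‖(s * r) • (ej j : Vec 2)‖ = r := by
          rw [norm_smul, norm_ej94, mul_one, Real.norm_eq_abs]
          rcases hs with rfl | rfl
          · rw [one_mul, abs_of_pos hr]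
          · rw [neg_one_mul, abs_neg, abs_of_pos hr]
        have hne : (s * r) • (ej j : Vec 2) ≠ 0 := by
          rw [← norm_pos_iff, hnorm]
          exact hr
        obtain ⟨y, hy, hy2⟩ := hdens h hhT _ hne (by rw [hnorm]; exact hrδ.trans hδr)
        rw [hnorm] at hy2
        exact ⟨y, by linarith, hK y hy t ht2⟩
      have hsd : ∀ k : ℕ, rw' M (Real.sqrt G) t k ≤ δ → ∀ j : Fin 2,
          A ρ β (h + (2 * rw' M (Real.sqrt G) t k) • ej j) t +
            A ρ β (h - (2 * rw' M (Real.sqrt G) t k) • ej j) t - 2 * A ρ β h t ≤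
            M * 2 ^ k * t * rw' M (Real.sqrt G) t k ^ 2 := by
        intro k _ j
        by_contra hcon
        push Not at hcon
        apply hbt
        rw [hbad]
        simp only [ht0, if_true]
        refine ⟨hR hhB, k, j, ?_⟩
        rw [hsc]
        simp only
        refine lt_of_le_of_lt (le_of_eq ?_) hcon
        ring
      have hgp : 4 * G ≤ A ρ β h m - A ρ β h t - A ρ β h (m - t) := by
        by_contra hcon
        push Not at hcon
        rw [hP] at hPt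
        rw [hQ] at hst
        exact hst ⟨htm, hPt, hcon⟩
      have h1 := lowG93 hρ hL hM1 hK1 hδ0 hδ1 ht0 htm.le e3 hW hKG (hK h hhB m hmn)
        (hK h hhB (m - t) (by omega)) (hK h hhB t ht2) hdens' hsd hgp
      have hK0 : 0 < K := by linarith
      rw [div_mul_div_comm, mul_one, div_le_iff₀ (by positivity)]
      rw [div_le_iff₀ (by positivity)] at h1
      calc G ≤ K * t * St ρ β h m t * (10 ^ 9 * M ^ 2) := h1
        _ = St ρ β h m t * (10 ^ 9 * M ^ 2 * K * t) := by ring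
    -- Newman-Piza
    have hNP : ∑ t ∈ Finset.Icc 1 m, St ρ β h m t ≤ CB * K :=
      (hNPB h m).trans (mul_le_mul_of_nonneg_left (hK h hhB m hmn) hCB)
    have hJsub : J ⊆ Finset.Icc 1 m := by
      intro t ht
      rw [hJ, Finset.mem_filter, hI, Finset.mem_Icc] at ht
      rw [Finset.mem_Icc]
      have := ht.2.2.2.2
      omega
    have hsumJ : G / (10 ^ 9 * M ^ 2 * K) * ∑ t ∈ J, (1 / (t : ℝ)) ≤ CB * K := by
      rw [Finset.mul_sum]
      refine (Finset.sum_le_sum hone).trans ?_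
      refine (Finset.sum_le_sum_of_subset_of_nonneg hJsub fun t _ _ => ?_).trans hNP
      unfold St
      exact integral_nonneg fun η => Finset.sum_nonneg fun y _ => sq_nonneg _
    have hK0 : 0 < K := by linarith
    have h1 : G / (10 ^ 9 * M ^ 2 * K) * (ca / 2 * Real.log n) ≤ CB * K :=
      (mul_le_mul_of_nonneg_left hwJ (by positivity)).trans hsumJ
    rw [div_mul_eq_mul_div, div_le_iff₀ (by positivity)] at h1
    have h2 : (C * Real.log n) ^ 2 * (10 ^ 9 * M ^ 2 * (CB + 1)) ≤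
        K ^ 2 * (10 ^ 9 * M ^ 2 * (CB + 1)) := by
      have h3 : (C * Real.log n) ^ 2 * (10 ^ 9 * M ^ 2 * (CB + 1)) =
          G * (ca / 2 * Real.log n) := by
        have h4 : G * (ca / 2 * Real.log n) = Γ * ca * (Real.log n ^ 2 / 2) := by
          rw [hG]
          ring
        rw [h4, hΓca]
        ring
      have h5 : 0 ≤ 10 ^ 9 * M ^ 2 * K ^ 2 := by positivity
      rw [h3]
      calc G * (ca / 2 * Real.log n) ≤ CB * K * (10 ^ 9 * M ^ 2 * K) := h1
        _ ≤ CB * K * (10 ^ 9 * M ^ 2 * K) + 10 ^ 9 * M ^ 2 * K ^ 2 := by linarith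
        _ = K ^ 2 * (10 ^ 9 * M ^ 2 * (CB + 1)) := by ring
    have h3 : (C * Real.log n) ^ 2 ≤ K ^ 2 :=
      le_of_mul_le_mul_right h2 (by positivity)
    exact le_of_sq_le_sq h3 hK0.le
  -- all `K`
  obtain ⟨n3, hn3⟩ := eventually_atTop.1 (hl.eventually_gt_atTop 1)
  refine ⟨max (max (max (max na nb) n2) (max n4 n5)) n3, fun n hn K hK => ?_⟩
  have h1 := main n ((le_max_left _ _).trans hn) (max K 1) (le_max_right _ _)
    fun h hh m hm => (hK h hh m hm).trans (le_max_left _ _)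
  have h2 := hn3 n ((le_max_right _ _).trans hn)
  have h4 : C0 * Real.log n ≤ C * Real.log n := mul_le_mul_of_nonneg_right hCC (by linarith)
  have h5 : 1 < C * Real.log n := by
    have : 1 * Real.log n ≤ C * Real.log n := mul_le_mul_of_nonneg_right hC1 (by linarith)
    linarith
  rcases le_max_iff.1 h1 with h3 | h3
  · exact h4.trans h3
  · linarith

end Pool.Agent.W_7d29a1_R13
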