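import Pool.Agent.W_7d29a1_P89.SLc

/-!
Windows of rows and the gap: at a localised time at which the gap is small a lucky window moves the
conditional mean of the free energy (after `W_7d29a1_P89.one89`); the number of such times (helper13).
-/

set_option autoImplicit false

namespace Pool.Agent.W_7d29a1_R13

open MeasureTheory ProbabilityTheory Filter Topology Pool.Agent.W_MP_7d29a1_pr
  Pool.Agent.W_7d29a1_h46 Pool.Agent.W_7d29a1_h46u Pool.Agent.W_7d29a1_D2.B35
  Pool.Agent.W_7d29a1_Q29 Pool.Agent.W_7d29a1_Q29.NT66 Pool.Agent.W_7d29a1_P89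

variable {d : ℕ} {ρ : Measure ℝ} [IsProbabilityMeasure ρ]

/-- One window, in terms of the gap and of the slope of the mean free energy. -/
theorem one13 (hd : 0 < d) (hρ : EM ρ) (P : Prm d) {n t K : ℕ}
    (hn : 1 ≤ n) (ht : t + K ≤ n) {c0 g S U V : ℝ} (hc : 0 < c0) (hg0 : 0 < g)
    (hgap : A ρ P.be P.h n - A ρ P.be P.h t - A ρ P.be P.h (n - t) ≤ g)
    (hsl : A ρ P.be P.h (n - t) - A ρ P.be P.h (n - (t + K)) - K * P.Lam ≤ S)
    (hV : 0 ≤ V) (hUV : V ≤ Real.log c0 + U - S - 2 * g / c0) (z0 : Site d)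
    (hloc : c0 ≤ (law d ρ).real {η | ∃ y ∈ boxF d t, c0 * Z P.be P.h η t ≤ PP P.be P.h η t y}) :
    (law d ρ).real {η | Lk P K z0 U η} * (c0 / 2) * V ^ 2 ≤
      ∫ η, (cE ρ (Pa d (t + K)) (fun η => X P.be P.h η n) η -
        cE ρ (Pa d t) (fun η => X P.be P.h η n) η) ^ 2 ∂(law d ρ) := by
  have htn : t ≤ n := by omega
  set f : Env d → ℝ := cE ρ (Pa d t) (Us ρ P.be P.h n t) with hf
  set s : ℝ := 2 * g / c0 with hs
  have hs0 : 0 < s := by positivity
  have hfm : Measurable f := measurable_cE (measurable_Us P.be P.h n t) (Pa d t)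
  have hfi : Integrable f (law d ρ) := (int_abs_cE (integrable_Us hd hρ P.be P.h n t) (Pa d t)).1
  have hf0 : 0 ≤ᵐ[law d ρ] f := Us_nonneg89 hd hρ P.be P.h htn
  -- the mean of the gain
  have hfE : ∫ η, f η ∂(law d ρ) ≤ g := by
    have e1 : ∫ η, f η ∂(law d ρ) = ∫ η, Us ρ P.be P.h n t η ∂(law d ρ) :=
      int_cE (Pa d t) (integrable_Us hd hρ P.be P.h n t)
    have hi1 : Integrable (fun η : Env d => X P.be P.h η n) (law d ρ) :=
      (concU hd hρ P.be P.h n).1
    have hi2 : Integrable (fun η : Env d => X P.be P.h η t) (law d ρ) :=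
      (concU hd hρ P.be P.h t).1
    have hi3 : Integrable (fun η : Env d => X P.be P.h η n - X P.be P.h η t) (law d ρ) :=
      hi1.sub hi2
    have e2 : ∫ η, Us ρ P.be P.h n t η ∂(law d ρ) =
        A ρ P.be P.h n - A ρ P.be P.h t - A ρ P.be P.h (n - t) := by
      unfold Us
      rw [integral_sub hi3 (integrable_const _), integral_sub hi1 hi2, integral_const]
      simp [A]
    rw [e1, e2]
    exact hgap
  set G : Set (Env d) := {η | f η ≤ s} with hG
  have hGm : MeasurableSet G := measurableSet_le hfm measurable_const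
  have hGd : DependsOn (fun η : Env d => η ∈ G) (Pa d t) := by
    intro η η' hη
    have e : f η = f η' := cE_dep (Pa d t) (Us ρ P.be P.h n t) hη
    show (f η ≤ s) = (f η' ≤ s)
    rw [e]
  have hMk : s * (law d ρ).real {η | s ≤ f η} ≤ ∫ η, f η ∂(law d ρ) :=
    mul_meas_ge_le_integral_of_nonneg hf0 hfi s
  have hbad : (law d ρ).real {η | s ≤ f η} ≤ c0 / 2 := by
    have h1 : s * (law d ρ).real {η | s ≤ f η} ≤ g := hMk.trans hfE
    have h2 : s * (c0 / 2) = g := by
      rw [hs]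
      field_simp
    rw [← h2] at h1
    exact le_of_mul_le_mul_left h1 hs0
  have hgood : c0 / 2 ≤ (law d ρ).real {η | (∃ y ∈ boxF d t,
      c0 * Z P.be P.h η t ≤ PP P.be P.h η t y) ∧ η ∈ G} := by
    have h1 : {η : Env d | ∃ y ∈ boxF d t, c0 * Z P.be P.h η t ≤ PP P.be P.h η t y} ⊆
        {η | (∃ y ∈ boxF d t, c0 * Z P.be P.h η t ≤ PP P.be P.h η t y) ∧ η ∈ G} ∪
          {η | s ≤ f η} := by
      intro η hη
      rcases le_total (f η) s with h | h
      · exact Or.inl ⟨hη, h⟩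
      · exact Or.inr h
    have h2 := (measureReal_mono (μ := law d ρ) h1).trans (measureReal_union_le _ _)
    linarith
  have hluc := luc78 (ρ := ρ) P c0 t K z0 U hGm hGd
  -- Markov for the square
  set F : Env d → ℝ := fun η => cE ρ (Pa d (t + K)) (fun η => X P.be P.h η n) η -
    cE ρ (Pa d t) (fun η => X P.be P.h η n) η with hF
  have hX2 := S98.X_sq_int (ρ := ρ) hd hρ P.be P.h hn
  have hXi : Integrable (fun η : Env d => X P.be P.h η n) (law d ρ) :=
    (concU hd hρ P.be P.h n).1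
  have hXm : Measurable fun η : Env d => X P.be P.h η n := measurable_X P.be P.h n
  have hF2 : Integrable (fun η => F η ^ 2) (law d ρ) := by
    have i1 := (cE_L2 (ρ := ρ) (Pa d (t + K)) hXm hXi hX2).1
    have i2 := (cE_L2 (ρ := ρ) (Pa d t) hXm hXi hX2).1
    have i3 := int_mul_sq (measurable_cE (ρ := ρ) hXm (Pa d (t + K)))
      (measurable_cE (ρ := ρ) hXm (Pa d t)) i1 i2
    have i4 := (i1.sub (i3.const_mul 2)).add i2
    refine i4.congr (Eventually.of_forall fun η => ?_)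
    simp only [hF, Pi.add_apply, Pi.sub_apply]
    ring
  have hMk2 : V ^ 2 * (law d ρ).real {η | V ^ 2 ≤ F η ^ 2} ≤ ∫ η, F η ^ 2 ∂(law d ρ) :=
    mul_meas_ge_le_integral_of_nonneg (Eventually.of_forall fun η => sq_nonneg (F η)) hF2 (V ^ 2)
  have hsub : {η : Env d | (∃ y ∈ boxF d t, c0 * Z P.be P.h η t ≤ PP P.be P.h η t y ∧
      Real.exp (K * P.Lam + U) * PP P.be P.h η t y ≤ PP P.be P.h η (t + K) (y + z0)) ∧ η ∈ G}
      ≤ᵐ[law d ρ] ({η | V ^ 2 ≤ F η ^ 2} : Set (Env d)) := by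
    filter_upwards [gain89 hd hρ P.be P.h ht (L := P.Lam) (U := U) (s := s) hc z0] with η h1 h2
    have h3 := h1 h2.1 h2.2
    have h8 : V ≤ F η := by
      simp only [hF]
      linarith
    exact pow_le_pow_left₀ hV h8 2
  have h9 : (law d ρ).real {η : Env d | (∃ y ∈ boxF d t, c0 * Z P.be P.h η t ≤ PP P.be P.h η t y ∧
      Real.exp (K * P.Lam + U) * PP P.be P.h η t y ≤ PP P.be P.h η (t + K) (y + z0)) ∧ η ∈ G} ≤
      (law d ρ).real {η | V ^ 2 ≤ F η ^ 2} :=
    ENNReal.toReal_mono (measure_ne_top _ _) (measure_mono_ae hsub)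
  have h10 : (law d ρ).real {η | Lk P K z0 U η} * (c0 / 2) ≤
      (law d ρ).real {η | V ^ 2 ≤ F η ^ 2} :=
    ((mul_le_mul_of_nonneg_left hgood measureReal_nonneg).trans hluc).trans h9
  calc (law d ρ).real {η | Lk P K z0 U η} * (c0 / 2) * V ^ 2
      ≤ (law d ρ).real {η | V ^ 2 ≤ F η ^ 2} * V ^ 2 :=
        mul_le_mul_of_nonneg_right h10 (sq_nonneg V)
    _ = V ^ 2 * (law d ρ).real {η | V ^ 2 ≤ F η ^ 2} := mul_comm _ _
    _ ≤ _ := hMk2

/-- The mean free energy is superadditive. -/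
lemma A_super13 (hd : 0 < d) (hρ : EM ρ) (β : ℝ) (h : Vec d) {m n : ℕ} (hmn : m ≤ n) :
    A ρ β h m + A ρ β h (n - m) ≤ A ρ β h n := by
  have h1 := Us_nonneg89 (ρ := ρ) hd hρ β h hmn
  have h2 : 0 ≤ ∫ η, cE ρ (Pa d m) (Us ρ β h n m) η ∂(law d ρ) := integral_nonneg_of_ae h1
  rw [int_cE (Pa d m) (integrable_Us hd hρ β h n m)] at h2
  have hi1 : Integrable (fun η : Env d => X β h η n) (law d ρ) := (concU hd hρ β h n).1
  have hi2 : Integrable (fun η : Env d => X β h η m) (law d ρ) := (concU hd hρ β h m).1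
  have hi3 : Integrable (fun η : Env d => X β h η n - X β h η m) (law d ρ) := hi1.sub hi2
  have e2 : ∫ η, Us ρ β h n m η ∂(law d ρ) = A ρ β h n - A ρ β h m - A ρ β h (n - m) := by
    unfold Us
    rw [integral_sub hi3 (integrable_const _), integral_sub hi1 hi2, integral_const]
    simp [A]
  rw [e2] at h2
  linarith

/-- The number of localised times with a small gap. -/
theorem count13 (hd : 0 < d) (hρ : EM ρ) (P : Prm d) {m K : ℕ}
    (hm : 1 ≤ m) {c0 g U V DK : ℝ} (hc : 0 < c0) (hg0 : 0 < g) (hDK0 : 0 ≤ DK)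
    (hDK : (K : ℝ) * P.Lam - A ρ P.be P.h K ≤ DK)
    (hsl : A ρ P.be P.h (m + K) - A ρ P.be P.h m ≤ K * P.Lam + 1)
    (hV : 0 ≤ V) (hUV : V ≤ Real.log c0 + U - (g + 1) - 2 * (g + 1 + DK) / c0) (z0 : Site d)
    (Bd : Finset ℕ) (hBd : ∀ t ∈ Bd, t < m ∧
      c0 ≤ (law d ρ).real {η | ∃ y ∈ boxF d t, c0 * Z P.be P.h η t ≤ PP P.be P.h η t y} ∧
      A ρ P.be P.h m - A ρ P.be P.h t - A ρ P.be P.h (m - t) ≤ g) :
    (Bd.card : ℝ) * ((law d ρ).real {η | Lk P K z0 U η} * (c0 / 2) * V ^ 2) ≤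
      K * Va ρ P.be P.h (m + K) := by
  classical
  have hX2 := S98.X_sq_int (ρ := ρ) hd hρ P.be P.h (show 1 ≤ m + K by omega)
  have ho := orth89 hd hρ P.be P.h hX2 K m
  refine le_trans ?_ ho
  calc (Bd.card : ℝ) * ((law d ρ).real {η | Lk P K z0 U η} * (c0 / 2) * V ^ 2)
      = ∑ _t ∈ Bd, (law d ρ).real {η | Lk P K z0 U η} * (c0 / 2) * V ^ 2 := by
        rw [Finset.sum_const, nsmul_eq_mul]
    _ ≤ ∑ t ∈ Bd, ∫ η, (cE ρ (Pa d (t + K)) (fun η => X P.be P.h η (m + K)) η -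
        cE ρ (Pa d t) (fun η => X P.be P.h η (m + K)) η) ^ 2 ∂(law d ρ) := by
        refine Finset.sum_le_sum fun t ht => ?_
        obtain ⟨h1, h2, h3⟩ := hBd t ht
        have s1 := A_super13 (ρ := ρ) hd hρ P.be P.h (show t ≤ m + K by omega)
        have s2 := A_super13 (ρ := ρ) hd hρ P.be P.h (show m - t ≤ m + K - t by omega)
        have e1 : m + K - t - (m - t) = K := by omega
        rw [e1] at s2
        have e2 : m + K - (t + K) = m - t := by omega
        refine one13 hd hρ P (n := m + K) (by omega) (by omega) (g := g + 1 + DK) (S := g + 1)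
          hc (by linarith) ?_ ?_ hV hUV z0 h2
        · linarith
        · rw [e2]
          linarith
    _ ≤ _ := by
        refine Finset.sum_le_sum_of_subset_of_nonneg ?_ fun t _ _ =>
          integral_nonneg fun _ => sq_nonneg _
        intro t ht
        exact Finset.mem_range.2 (hBd t ht).1

end Pool.Agent.W_7d29a1_R13
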